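import Mathlib

/-! Near-flat estimates in a Fermi chart: pure ODE part. -/

namespace NearFlat

open Set

/-- The metric coefficient along the normal geodesics of a line in curvature `≤ 0`. -/
structure Fermi (G G1 Kc : ℝ → ℝ → ℝ) : Prop where
  G0 : ∀ t, G t 0 = 1
  G10 : ∀ t, G1 t 0 = 0
  dG : ∀ t y, HasDerivAt (G t) (G1 t y) y
  dG1 : ∀ t y, HasDerivAt (G1 t) (-Kc t y * G t y) y
  Kneg : ∀ t y, Kc t y ≤ 0

variable {G G1 Kc : ℝ → ℝ → ℝ}

theorem Fermi.deriv_sq (h : Fermi G G1 Kc) (t y : ℝ) :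
    HasDerivAt (fun y => G t y * G1 t y) (G1 t y ^ 2 + -Kc t y * G t y ^ 2) y := by
  have := (h.dG t y).mul (h.dG1 t y)
  refine HasDerivAt.congr_deriv (f := fun y => G t y * G1 t y) this ?_
  ring

theorem Fermi.mono_GG1 (h : Fermi G G1 Kc) (t : ℝ) : Monotone (fun y => G t y * G1 t y) := by
  apply monotone_of_hasDerivAt_nonneg (fun y => h.deriv_sq t y)
  intro y
  have := h.Kneg t y
  have : 0 ≤ -Kc t y * G t y ^ 2 := mul_nonneg (by linarith) (sq_nonneg _)
  simp only [Pi.zero_apply]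
  positivity

theorem Fermi.GG1_nonneg (h : Fermi G G1 Kc) {t y : ℝ} (hy : 0 ≤ y) : 0 ≤ G t y * G1 t y := by
  have := h.mono_GG1 t hy
  simpa [h.G10] using this

theorem Fermi.GG1_nonpos (h : Fermi G G1 Kc) {t y : ℝ} (hy : y ≤ 0) : G t y * G1 t y ≤ 0 := by
  have := h.mono_GG1 t hy
  simpa [h.G10] using this

theorem Fermi.sq_ge (h : Fermi G G1 Kc) (t y : ℝ) : 1 ≤ G t y ^ 2 := by
  have hd : ∀ y, HasDerivAt (fun y => G t y ^ 2) (2 * (G t y * G1 t y)) y := by
    intro y
    have := (h.dG t y).pow 2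
    refine HasDerivAt.congr_deriv (f := fun y => G t y ^ 2) this ?_
    norm_num
    ring
  rcases le_total 0 y with hy | hy
  · have hm : MonotoneOn (fun y => G t y ^ 2) (Icc 0 y) := by
      apply monotoneOn_of_deriv_nonneg (convex_Icc _ _)
      · exact fun z _ => (hd z).continuousAt.continuousWithinAt
      · exact fun z _ => (hd z).differentiableAt.differentiableWithinAt
      · intro z hz
        rw [interior_Icc] at hz
        rw [(hd z).deriv]
        have := h.GG1_nonneg (t := t) hz.1.le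
        linarith
    have := hm (left_mem_Icc.2 hy) (right_mem_Icc.2 hy) hy
    simpa [h.G0] using this
  · have hm : AntitoneOn (fun y => G t y ^ 2) (Icc y 0) := by
      apply antitoneOn_of_deriv_nonpos (convex_Icc _ _)
      · exact fun z _ => (hd z).continuousAt.continuousWithinAt
      · exact fun z _ => (hd z).differentiableAt.differentiableWithinAt
      · intro z hz
        rw [interior_Icc] at hz
        rw [(hd z).deriv]
        have := h.GG1_nonpos (t := t) hz.2.le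
        linarith
    have := hm (left_mem_Icc.2 hy) (right_mem_Icc.2 hy) hy
    simpa [h.G0] using this

theorem Fermi.G_ge_one (h : Fermi G G1 Kc) (t y : ℝ) : 1 ≤ G t y := by
  have hc : Continuous (G t) := continuous_iff_continuousAt.2 (fun y => (h.dG t y).continuousAt)
  by_contra hcon
  push Not at hcon
  have h1 := h.sq_ge t y
  have h2 : G t y ≤ -1 := by
    by_contra h3
    push Not at h3
    nlinarith
  -- intermediate value: some zero
  have : (0 : ℝ) ∈ (G t) '' (uIcc 0 y) := by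
    apply intermediate_value_uIcc hc.continuousOn
    rw [h.G0]
    rw [uIcc_of_ge (by linarith)]
    constructor <;> linarith
  obtain ⟨z, _, hz⟩ := this
  have := h.sq_ge t z
  rw [hz] at this
  norm_num at this

theorem Fermi.G_pos (h : Fermi G G1 Kc) (t y : ℝ) : 0 < G t y := by
  linarith [h.G_ge_one t y]

theorem Fermi.G1_nonneg (h : Fermi G G1 Kc) {t y : ℝ} (hy : 0 ≤ y) : 0 ≤ G1 t y := by
  have := h.GG1_nonneg (t := t) hy
  exact nonneg_of_mul_nonneg_right this (h.G_pos t y)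

theorem Fermi.G1_nonpos (h : Fermi G G1 Kc) {t y : ℝ} (hy : y ≤ 0) : G1 t y ≤ 0 := by
  have := h.GG1_nonpos (t := t) hy
  by_contra hcon
  push Not at hcon
  have := mul_pos (h.G_pos t y) hcon
  linarith

/-- the geodesic curvature `G_y / G` of the equidistant curves -/
theorem Fermi.hasDerivAt_ratio (h : Fermi G G1 Kc) (t y : ℝ) :
    HasDerivAt (fun y => G1 t y / G t y) (-Kc t y - (G1 t y / G t y) ^ 2) y := by
  have hG := (h.G_pos t y).ne'
  have := (h.dG1 t y).div (h.dG t y) hG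
  refine HasDerivAt.congr_deriv (f := fun y => G1 t y / G t y) this ?_
  field_simp

theorem Fermi.ratio_le (h : Fermi G G1 Kc) {t κ r : ℝ} (hκ : ∀ y, |y| < r → -Kc t y ≤ κ)
    {y : ℝ} (hy : |y| < r) : |G1 t y / G t y| ≤ κ * |y| := by
  obtain ⟨hy1, hy2⟩ := abs_lt.1 hy
  have hd : ∀ y, HasDerivAt (fun y => G1 t y / G t y - κ * y)
      (-Kc t y - (G1 t y / G t y) ^ 2 - κ) y := by
    intro y
    have := (h.hasDerivAt_ratio t y).sub ((hasDerivAt_id y).const_mul κ)
    refine HasDerivAt.congr_deriv (f := fun y => G1 t y / G t y - κ * y) this ?_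
    simp
  have hr : 0 < r := by linarith [abs_nonneg y]
  have hanti : AntitoneOn (fun y => G1 t y / G t y - κ * y) (Ioo (-r) r) := by
    apply antitoneOn_of_deriv_nonpos (convex_Ioo _ _)
    · exact fun z _ => (hd z).continuousAt.continuousWithinAt
    · exact fun z _ => (hd z).differentiableAt.differentiableWithinAt
    · intro z hz
      rw [interior_Ioo] at hz
      rw [(hd z).deriv]
      have := hκ z (abs_lt.2 hz)
      have := sq_nonneg (G1 t z / G t z)
      linarith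
  have h0 : (0 : ℝ) ∈ Ioo (-r) r := ⟨by linarith, hr⟩
  have hym : y ∈ Ioo (-r) r := ⟨hy1, hy2⟩
  have e0 : G1 t 0 / G t 0 - κ * 0 = 0 := by simp [h.G10]
  rcases le_total 0 y with hy0 | hy0
  · have h1 := hanti h0 hym hy0
    simp only [e0] at h1
    have h2 : 0 ≤ G1 t y / G t y := div_nonneg (h.G1_nonneg hy0) (h.G_pos t y).le
    rw [abs_of_nonneg h2, abs_of_nonneg hy0]
    linarith
  · have h1 := hanti hym h0 hy0
    simp only [e0] at h1
    have h2 : G1 t y / G t y ≤ 0 := div_nonpos_of_nonpos_of_nonneg (h.G1_nonpos hy0) (h.G_pos t y).le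
    rw [abs_of_nonpos h2, abs_of_nonpos hy0]
    linarith

/-- a geodesic in the chart -/
structure Sol (G G1 : ℝ → ℝ → ℝ) (t y φ : ℝ → ℝ) : Prop where
  dt : ∀ s, HasDerivAt t (Real.cos (φ s) / G (t s) (y s)) s
  dy : ∀ s, HasDerivAt y (Real.sin (φ s)) s
  dφ : ∀ s, HasDerivAt φ (G1 (t s) (y s) / G (t s) (y s) * Real.cos (φ s)) s

variable {t y φ : ℝ → ℝ}

theorem Sol.t_lip (h : Fermi G G1 Kc) (S : Sol G G1 t y φ) (a b : ℝ) : |t b - t a| ≤ |b - a| := by
  have := Convex.norm_image_sub_le_of_norm_hasDerivWithin_le (f := t)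
    (f' := fun s => Real.cos (φ s) / G (t s) (y s)) (C := 1) (s := univ) (x := a) (y := b)
    (fun s _ => (S.dt s).hasDerivWithinAt) (fun s _ => ?_) convex_univ (mem_univ _) (mem_univ _)
  · simpa [Real.norm_eq_abs] using this
  · rw [Real.norm_eq_abs, abs_div, abs_of_pos (h.G_pos _ _)]
    rw [div_le_one (h.G_pos _ _)]
    exact (Real.abs_cos_le_one _).trans (h.G_ge_one _ _)

theorem Sol.y_lip (S : Sol G G1 t y φ) (a b : ℝ) : |y b - y a| ≤ |b - a| := by
  have := Convex.norm_image_sub_le_of_norm_hasDerivWithin_le (f := y)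
    (f' := fun s => Real.sin (φ s)) (C := 1) (s := univ) (x := a) (y := b)
    (fun s _ => (S.dy s).hasDerivWithinAt) (fun s _ => ?_) convex_univ (mem_univ _) (mem_univ _)
  · simpa [Real.norm_eq_abs] using this
  · rw [Real.norm_eq_abs]
    exact Real.abs_sin_le_one _

/-- time reversal -/
theorem Sol.reverse (S : Sol G G1 t y φ) :
    Sol G G1 (fun s => t (-s)) (fun s => y (-s)) (fun s => φ (-s) + Real.pi) where
  dt s := by
    have := (S.dt (-s)).scomp s (hasDerivAt_neg s)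
    refine HasDerivAt.congr_deriv (f := fun s => t (-s)) this ?_
    simp [Real.cos_add_pi]; ring
  dy s := by
    have := (S.dy (-s)).scomp s (hasDerivAt_neg s)
    refine HasDerivAt.congr_deriv (f := fun s => y (-s)) this ?_
    simp [Real.sin_add_pi]
  dφ s := by
    have := ((S.dφ (-s)).scomp s (hasDerivAt_neg s)).add_const Real.pi
    refine HasDerivAt.congr_deriv (f := fun s => φ (-s) + Real.pi) this ?_
    simp [Real.cos_add_pi]

/-- one-sided tracking under an a priori bound -/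
theorem Sol.track_aux (h : Fermi G G1 Kc) (S : Sol G G1 t y φ) {κ r L : ℝ} (hκ0 : 0 ≤ κ) (hr : 0 ≤ r)
    (hL : 0 ≤ L) (hy : ∀ s ∈ Ico 0 L, |y s| < r)
    (hκ : ∀ s ∈ Ico 0 L, ∀ z, |z| < r → -Kc (t s) z ≤ κ) :
    |φ L - φ 0| ≤ κ * r * L ∧ |y L - (y 0 + L * Real.sin (φ 0))| ≤ κ * r * L ^ 2 / 2 := by
  -- bound of φ' on [0, L)
  have hφ' : ∀ s ∈ Ico 0 L, |G1 (t s) (y s) / G (t s) (y s) * Real.cos (φ s)| ≤ κ * r := by
    intro s hs
    rw [abs_mul]
    have h1 := h.ratio_le (hκ s hs) (hy s hs)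
    have h2 := Real.abs_cos_le_one (φ s)
    have h3 : κ * |y s| ≤ κ * r := mul_le_mul_of_nonneg_left (hy s hs).le hκ0
    calc |G1 (t s) (y s) / G (t s) (y s)| * |Real.cos (φ s)| ≤ κ * r * 1 :=
          mul_le_mul (h1.trans h3) h2 (abs_nonneg _) (by positivity)
      _ = κ * r := mul_one _
  have hφ : ∀ s ∈ Icc 0 L, |φ s - φ 0| ≤ κ * r * s := by
    intro s hs
    have := image_norm_le_of_norm_deriv_right_le_deriv_boundary (f := fun s => φ s - φ 0)
      (f' := fun s => G1 (t s) (y s) / G (t s) (y s) * Real.cos (φ s)) (a := 0) (b := L)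
      (B := fun s => κ * r * s) (B' := fun _ => κ * r)
      (fun s _ => ((S.dφ s).continuousAt.sub continuousAt_const).continuousWithinAt)
      (fun s _ => ((S.dφ s).sub_const _).hasDerivWithinAt) (by simp)
      (fun s => by simpa using (hasDerivAt_id s).const_mul (κ * r))
      (fun s hs => by rw [Real.norm_eq_abs]; exact hφ' s hs) hs
    simpa [Real.norm_eq_abs] using this
  refine ⟨hφ L (right_mem_Icc.2 hL), ?_⟩
  have := image_norm_le_of_norm_deriv_right_le_deriv_boundary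
      (f := fun s => y s - (y 0 + s * Real.sin (φ 0)))
      (f' := fun s => Real.sin (φ s) - Real.sin (φ 0)) (a := 0) (b := L)
      (B := fun s => κ * r * s ^ 2 / 2) (B' := fun s => κ * r * s)
      (fun s _ => ?_) (fun s _ => ?_) (by simp) (fun s => ?_) (fun s hs => ?_) (right_mem_Icc.2 hL)
  · simpa [Real.norm_eq_abs] using this
  · apply ContinuousAt.continuousWithinAt
    exact (S.dy s).continuousAt.sub (by fun_prop)
  · apply HasDerivAt.hasDerivWithinAt
    have h1 : HasDerivAt (fun s : ℝ => y 0 + s * Real.sin (φ 0)) (Real.sin (φ 0)) s := by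
      simpa using ((hasDerivAt_id s).mul_const (Real.sin (φ 0))).const_add (y 0)
    exact (S.dy s).sub h1
  · have h2 : HasDerivAt (fun s : ℝ => κ * r / 2 * s ^ 2) (κ * r / 2 * ((2 : ℕ) * s ^ (2 - 1))) s :=
      (hasDerivAt_pow 2 s).const_mul _
    have e : (fun s : ℝ => κ * r * s ^ 2 / 2) = fun s => κ * r / 2 * s ^ 2 := by
      funext s; ring
    rw [e]
    refine h2.congr_deriv ?_
    simp only [Nat.cast_ofNat]
    ring
  · rw [Real.norm_eq_abs]
    have h1 : |Real.sin (φ s) - Real.sin (φ 0)| ≤ |φ s - φ 0| := by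
      have := Real.abs_sin_sub_sin_le (φ s) (φ 0)
      exact this
    exact h1.trans (hφ s ⟨hs.1, hs.2.le⟩)

theorem abs_affine_le {a b c s L : ℝ} (hs : 0 ≤ s) (hsL : s ≤ L) (h0 : |a| < c)
    (h1 : |a + L * b| < c) : |a + s * b| < c := by
  rcases eq_or_lt_of_le (hs.trans hsL) with hL | hL
  · have : s = 0 := by linarith
    rw [this]; simpa using h0
  · obtain ⟨p1, p2⟩ := abs_lt.1 h0
    obtain ⟨p3, p4⟩ := abs_lt.1 h1
    have e : a + s * b = (1 - s / L) * a + s / L * (a + L * b) := by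
      field_simp; ring
    have q1 : 0 ≤ s / L := by positivity
    have q2 : s / L ≤ 1 := (div_le_one hL).2 hsL
    rw [e, abs_lt]
    generalize s / L = θ at q1 q2
    generalize a + L * b = q at p3 p4
    rcases eq_or_lt_of_le q1 with q0 | q0
    · rw [← q0]; constructor <;> linarith
    · have k1 : 0 < θ * (c - q) := mul_pos q0 (by linarith)
      have k2 : 0 < θ * (q + c) := mul_pos q0 (by linarith)
      have k3 : 0 ≤ (1 - θ) * (c - a) := mul_nonneg (by linarith) (by linarith)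
      have k4 : 0 ≤ (1 - θ) * (a + c) := mul_nonneg (by linarith) (by linarith)
      constructor <;> linarith

/-- **Tracking.** If the straight line from `(y 0)` with slope `sin (φ 0)` stays well inside the
almost flat tube for time `L`, the geodesic follows it. -/
theorem Sol.track (h : Fermi G G1 Kc) (S : Sol G G1 t y φ) {κ r N L : ℝ} (hκ0 : 0 ≤ κ)
    (hr : 0 ≤ r) (_hL : 0 ≤ L) (hκ : ∀ t z, |t| ≤ N → |z| < r → -Kc t z ≤ κ)
    (ht : |t 0| + L ≤ N) (h0 : |y 0| < r - κ * r * L ^ 2 / 2)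
    (h1 : |y 0 + L * Real.sin (φ 0)| < r - κ * r * L ^ 2 / 2) :
    ∀ s ∈ Icc 0 L, |y s| < r ∧ |φ s - φ 0| ≤ κ * r * s ∧
      |y s - (y 0 + s * Real.sin (φ 0))| ≤ κ * r * s ^ 2 / 2 ∧ |t s - t 0| ≤ s := by
  have htb : ∀ s, 0 ≤ s → |t s - t 0| ≤ s := by
    intro s hs
    have := S.t_lip h 0 s
    rwa [sub_zero, abs_of_nonneg hs] at this
  have hκ' : ∀ s, 0 ≤ s → s ≤ L → ∀ z, |z| < r → -Kc (t s) z ≤ κ := by
    intro s hs hsL z hz
    apply hκ _ _ _ hz
    have := htb s hs
    have h2 : |t s| ≤ |t s - t 0| + |t 0| := by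
      have := abs_add_le (t s - t 0) (t 0)
      simpa using this
    linarith
  have hin : ∀ s ∈ Icc 0 L, |y s| < r := by
    by_contra hcon
    push Not at hcon
    set A : Set ℝ := {s | s ∈ Icc 0 L ∧ r ≤ |y s|} with hA
    have hyc : Continuous y := continuous_iff_continuousAt.2 (fun s => (S.dy s).continuousAt)
    have hAne : A.Nonempty := by
      obtain ⟨s, hs, hs'⟩ := hcon
      exact ⟨s, hs, hs'⟩
    have hAcl : IsClosed A := by
      have e : A = Icc 0 L ∩ {s | r ≤ |y s|} := rfl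
      rw [e]
      exact isClosed_Icc.inter (isClosed_le continuous_const hyc.abs)
    have hAb : BddBelow A := ⟨0, fun s hs => hs.1.1⟩
    have hmem := hAcl.csInf_mem hAne hAb
    set s0 := sInf A with hs0
    have hlt : ∀ s ∈ Ico 0 s0, |y s| < r := by
      intro s hs
      by_contra hc
      push Not at hc
      have : s ∈ A := ⟨⟨hs.1, hs.2.le.trans hmem.1.2⟩, hc⟩
      exact absurd (csInf_le hAb this) (not_le.2 hs.2)
    have htr := S.track_aux h hκ0 hr hmem.1.1 hlt
      (fun s hs z hz => hκ' s hs.1 (hs.2.le.trans hmem.1.2) z hz)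
    have h2 := abs_affine_le (a := y 0) (b := Real.sin (φ 0)) hmem.1.1 hmem.1.2 h0 h1
    have h3 : κ * r * s0 ^ 2 / 2 ≤ κ * r * L ^ 2 / 2 := by
      have : s0 ^ 2 ≤ L ^ 2 := pow_le_pow_left₀ hmem.1.1 hmem.1.2 2
      have h4 : 0 ≤ κ * r := mul_nonneg hκ0 hr
      nlinarith
    have h5 : |y s0| ≤ |y s0 - (y 0 + s0 * Real.sin (φ 0))| + |y 0 + s0 * Real.sin (φ 0)| := by
      have := abs_add_le (y s0 - (y 0 + s0 * Real.sin (φ 0))) (y 0 + s0 * Real.sin (φ 0))
      simpa using this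
    have := hmem.2
    linarith [htr.2]
  intro s hs
  have htr := S.track_aux h hκ0 hr hs.1 (fun s' hs' => hin s' ⟨hs'.1, hs'.2.le.trans hs.2⟩)
      (fun s' hs' z hz => hκ' s' hs'.1 (hs'.2.le.trans hs.2) z hz)
  exact ⟨hin s hs, htr.1, htr.2, htb s hs.1⟩

/-- tracking backwards in time -/
theorem Sol.track_neg (h : Fermi G G1 Kc) (S : Sol G G1 t y φ) {κ r N L : ℝ} (hκ0 : 0 ≤ κ)
    (hr : 0 ≤ r) (hL : 0 ≤ L) (hκ : ∀ t z, |t| ≤ N → |z| < r → -Kc t z ≤ κ)
    (ht : |t 0| + L ≤ N) (h0 : |y 0| < r - κ * r * L ^ 2 / 2)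
    (h1 : |y 0 - L * Real.sin (φ 0)| < r - κ * r * L ^ 2 / 2) :
    ∀ s ∈ Icc (-L) 0, |y s| < r ∧ |φ s - φ 0| ≤ κ * r * (-s) ∧
      |y s - (y 0 + s * Real.sin (φ 0))| ≤ κ * r * s ^ 2 / 2 ∧ |t s - t 0| ≤ -s := by
  have hR := S.reverse.track h hκ0 hr hL hκ (by simpa using ht) (by simpa using h0)
    (by simpa [Real.sin_add_pi, sub_eq_add_neg] using h1)
  intro s hs
  have := hR (-s) ⟨by linarith [hs.2], by linarith [hs.1]⟩
  simp only [neg_neg, neg_zero, Real.sin_add_pi] at this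
  obtain ⟨a1, a2, a3, a4⟩ := this
  refine ⟨a1, ?_, ?_, a4⟩
  · simpa using a2
  · have e : y 0 + -s * -Real.sin (φ 0) = y 0 + s * Real.sin (φ 0) := by ring
    rw [e] at a3
    simpa using a3

/-- two-sided tracking -/
theorem Sol.track_both (h : Fermi G G1 Kc) (S : Sol G G1 t y φ) {κ r N L : ℝ} (hκ0 : 0 ≤ κ)
    (hr : 0 ≤ r) (hL : 0 ≤ L) (hκ : ∀ t z, |t| ≤ N → |z| < r → -Kc t z ≤ κ)
    (ht : |t 0| + L ≤ N) (h0 : |y 0| + L * |Real.sin (φ 0)| < r - κ * r * L ^ 2 / 2) :
    ∀ s, |s| ≤ L → |y s| < r ∧ |φ s - φ 0| ≤ κ * r * |s| ∧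
      |y s - (y 0 + s * Real.sin (φ 0))| ≤ κ * r * s ^ 2 / 2 ∧ |t s - t 0| ≤ |s| := by
  have e0 : |y 0| < r - κ * r * L ^ 2 / 2 := by
    have : 0 ≤ L * |Real.sin (φ 0)| := by positivity
    linarith
  have e1 : |y 0 + L * Real.sin (φ 0)| < r - κ * r * L ^ 2 / 2 := by
    have := abs_add_le (y 0) (L * Real.sin (φ 0))
    rw [abs_mul, abs_of_nonneg hL] at this
    linarith
  have e2 : |y 0 - L * Real.sin (φ 0)| < r - κ * r * L ^ 2 / 2 := by
    have := abs_sub (y 0) (L * Real.sin (φ 0))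
    rw [abs_mul, abs_of_nonneg hL] at this
    linarith
  intro s hs
  rcases le_total 0 s with h2 | h2
  · rw [abs_of_nonneg h2] at hs ⊢
    exact S.track h hκ0 hr hL hκ ht e0 e1 s ⟨h2, hs⟩
  · rw [abs_of_nonpos h2] at hs ⊢
    exact S.track_neg h hκ0 hr hL hκ ht e0 e2 s ⟨by linarith, h2⟩

end NearFlat
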