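import Mathlib

/-! Decay of the tube functional: abstract measure-theoretic part. -/

namespace FlatDecay

open MeasureTheory ENNReal

/-- `ω_k = D q^{-k}` with `q = 11/10` -/
noncomputable def om (D : ℝ) (k : ℕ) : ℝ := D * (10 / 11) ^ k

theorem om_pos {D : ℝ} (hD : 0 < D) (k : ℕ) : 0 < om D k := by unfold om; positivity

theorem om_le {D : ℝ} (hD : 0 < D) (k : ℕ) : om D k ≤ D := by
  unfold om
  have : ((10 : ℝ) / 11) ^ k ≤ 1 := pow_le_one₀ (by norm_num) (by norm_num)
  nlinarith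

theorem om_anti {D : ℝ} (hD : 0 < D) {i j : ℕ} (h : i ≤ j) : om D j ≤ om D i := by
  unfold om
  have : ((10 : ℝ) / 11) ^ j ≤ (10 / 11) ^ i := pow_le_pow_of_le_one (by norm_num) (by norm_num) h
  nlinarith

/-- the weight of level `k`: `(q ω_k)^20` -/
noncomputable def wt (D : ℝ) (k : ℕ) : ℝ≥0∞ := ENNReal.ofReal ((11 / 10 * om D k) ^ 20)

/-- geometric summation over the levels below `x` -/
theorem tsum_wt {D : ℝ} (hD : 0 < D) (x : ℝ≥0∞) :
    ∑' k, (if ENNReal.ofReal (om D k) ≤ x then wt D k else 0) ≤ 8 * x ^ 20 := by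
  classical
  by_cases h : ∃ k, ENNReal.ofReal (om D k) ≤ x
  · set k0 := Nat.find h with hk0
    have hk : ENNReal.ofReal (om D k0) ≤ x := Nat.find_spec h
    have hlt : ∀ k < k0, ¬ ENNReal.ofReal (om D k) ≤ x := fun k hk => Nat.find_min h hk
    have e1 : ∀ k, (if ENNReal.ofReal (om D k) ≤ x then wt D k else 0) ≤
        (if k0 ≤ k then wt D k else 0) := by
      intro k
      by_cases hk' : k0 ≤ k
      · rw [if_pos hk']; split_ifs <;> simp
      · rw [if_neg (hlt k (not_le.1 hk'))]; simp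
    have e2 : ∑' k, (if k0 ≤ k then wt D k else 0) = ∑' j, wt D (k0 + j) := by
      rw [← ENNReal.summable.sum_add_tsum_nat_add' (k := k0)]
      rw [Finset.sum_eq_zero, zero_add]
      · apply tsum_congr
        intro j
        rw [if_pos (by omega), add_comm]
      · intro i hi
        rw [if_neg (by have := Finset.mem_range.1 hi; omega)]
    have e3 : ∀ j, wt D (k0 + j) = wt D k0 * (ENNReal.ofReal ((10 / 11) ^ 20)) ^ j := by
      intro j
      unfold wt
      rw [← ENNReal.ofReal_pow (by positivity), ← ENNReal.ofReal_mul (by positivity)]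
      congr 1
      unfold om
      have e : (((10 : ℝ) / 11) ^ 20) ^ j = ((10 / 11) ^ j) ^ 20 := by
        rw [← pow_mul, ← pow_mul, mul_comm]
      rw [e, pow_add]
      generalize ((10 : ℝ) / 11) ^ j = a
      generalize ((10 : ℝ) / 11) ^ k0 = b
      ring
    calc _ ≤ ∑' k, (if k0 ≤ k then wt D k else 0) := ENNReal.tsum_le_tsum e1
      _ = ∑' j, wt D (k0 + j) := e2
      _ = wt D k0 * ∑' j, (ENNReal.ofReal ((10 / 11) ^ 20)) ^ j := by
        rw [← ENNReal.tsum_mul_left]; exact tsum_congr e3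
      _ = wt D k0 * (1 - ENNReal.ofReal ((10 / 11) ^ 20))⁻¹ := by rw [ENNReal.tsum_geometric]
      _ ≤ wt D k0 * ENNReal.ofReal (118 / 100) := by
        gcongr
        rw [show (1 : ℝ≥0∞) = ENNReal.ofReal 1 by simp, ← ENNReal.ofReal_sub _ (by positivity),
          ← ENNReal.ofReal_inv_of_pos (by norm_num)]
        apply ENNReal.ofReal_le_ofReal
        norm_num
      _ = ENNReal.ofReal ((11 / 10) ^ 20 * (118 / 100)) * ENNReal.ofReal (om D k0) ^ 20 := by
        unfold wt
        rw [← ENNReal.ofReal_pow (om_pos hD _).le, ← ENNReal.ofReal_mul (by positivity),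
          ← ENNReal.ofReal_mul (by positivity)]
        congr 1
        ring
      _ ≤ 8 * x ^ 20 := by
        gcongr
        rw [show (8 : ℝ≥0∞) = ENNReal.ofReal 8 by simp]
        apply ENNReal.ofReal_le_ofReal
        norm_num
  · push Not at h
    have : ∀ k, (if ENNReal.ofReal (om D k) ≤ x then wt D k else 0) = 0 := by
      intro k; rw [if_neg (not_le.2 (h k))]
    simp [this]

/-- every positive value `≤ D` lies in a level -/
theorem exists_level {D : ℝ} (hD : 0 < D) {x : ℝ≥0∞} (hx : x ≠ 0) (hxD : x ≤ ENNReal.ofReal D) :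
    ∃ k, ENNReal.ofReal (om D k) ≤ x ∧ x ^ 20 ≤ wt D k := by
  classical
  have hxt : x ≠ ⊤ := (lt_of_le_of_lt hxD ENNReal.ofReal_lt_top).ne
  have hxr : 0 < x.toReal := ENNReal.toReal_pos hx hxt
  have hex : ∃ k, om D k ≤ x.toReal := by
    have := exists_pow_lt_of_lt_one (show 0 < x.toReal / D by positivity)
      (show (10 / 11 : ℝ) < 1 by norm_num)
    obtain ⟨k, hk⟩ := this
    refine ⟨k, ?_⟩
    unfold om
    rw [lt_div_iff₀ hD] at hk
    linarith
  set k0 := Nat.find hex with hk0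
  have hk : om D k0 ≤ x.toReal := Nat.find_spec hex
  refine ⟨k0, ENNReal.ofReal_le_of_le_toReal hk, ?_⟩
  have hle : x.toReal ≤ 11 / 10 * om D k0 := by
    rcases Nat.eq_zero_or_pos k0 with h0 | h0
    · rw [h0]
      have : x.toReal ≤ D := ENNReal.toReal_le_of_le_ofReal hD.le hxD
      unfold om
      rw [pow_zero]
      linarith
    · have hlt : ¬ om D (k0 - 1) ≤ x.toReal := Nat.find_min hex (by omega)
      push Not at hlt
      have : 11 / 10 * om D k0 = om D (k0 - 1) := by
        unfold om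
        obtain ⟨j, hj⟩ : ∃ j, k0 = j + 1 := ⟨k0 - 1, by omega⟩
        rw [hj]
        simp only [Nat.add_sub_cancel]
        rw [pow_succ]; ring
      rw [this]; exact hlt.le
  unfold wt
  rw [← ENNReal.ofReal_toReal hxt, ← ENNReal.ofReal_pow ENNReal.toReal_nonneg]
  apply ENNReal.ofReal_le_ofReal
  gcongr

variable {Ω : Type*} [MeasurableSpace Ω] {μ : Measure Ω}

/-- abstract data of the decay inequality at one scale `m` -/
structure Step (μ : Measure Ω) (D : ℝ) (w1 w2 wN : Ω → ℝ≥0∞) (P : Ω → Ω) (R S : ℕ → Ω → Ω) :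
    Prop where
  m1 : Measurable w1
  m2 : Measurable w2
  mN : Measurable wN
  le1 : ∀ u, w2 u ≤ w1 u
  le2 : ∀ u, wN u ≤ w2 u
  bd : ∀ u, w1 u ≤ ENNReal.ofReal D
  mR : ∀ k, MeasurePreserving (R k) μ μ
  mS : ∀ k, MeasurePreserving (fun u => S k (P u)) μ μ
  RC : ∀ k u, ENNReal.ofReal (om D k) ≤ w2 u → ENNReal.ofReal (98 / 100 * om D k) ≤ w1 (R k u)
  GC : ∀ k u, ENNReal.ofReal (95 / 100 * om D k) ≤ wN u →
    ENNReal.ofReal (95 / 100 * om D k) ≤ wN (R k u) → ENNReal.ofReal (13 / 10 * om D k) ≤ w1 (S k (P u))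

theorem step {D : ℝ} (hD : 0 < D) [IsFiniteMeasure μ] {w1 w2 wN : Ω → ℝ≥0∞} {P : Ω → Ω}
    {R S : ℕ → Ω → Ω} (h : Step μ D w1 w2 wN P R S) :
    ∫⁻ u, wN u ^ 20 ∂μ ≤ ENNReal.ofReal (99 / 100) * ∫⁻ u, w1 u ^ 20 ∂μ := by
  classical
  set Bad : Set Ω := {b | wN b < ENNReal.ofReal (98 / 100) * w1 b} with hBad
  have hBm : MeasurableSet Bad := measurableSet_lt h.mN (h.m1.const_mul _)
  set A : ℕ → Set Ω := fun k => Bad ∩ {b | ENNReal.ofReal (98 / 100 * om D k) ≤ w1 b} with hA
  have hAm : ∀ k, MeasurableSet (A k) := fun k => hBm.inter (measurableSet_le measurable_const h.m1)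
  set E : ℕ → Set Ω := fun k => {b | ENNReal.ofReal (13 / 10 * om D k) ≤ w1 b} with hE
  have hEm : ∀ k, MeasurableSet (E k) := fun k => measurableSet_le measurable_const h.m1
  set b : ℝ≥0∞ := ∫⁻ u, Bad.indicator (fun u => w1 u ^ 20) u ∂μ with hb
  -- finiteness
  have hfin : ∫⁻ u, w1 u ^ 20 ∂μ ≠ ⊤ := by
    have : ∫⁻ u, w1 u ^ 20 ∂μ ≤ ∫⁻ _, ENNReal.ofReal D ^ 20 ∂μ :=
      lintegral_mono (fun u => by gcongr; exact h.bd u)
    refine (lt_of_le_of_lt this ?_).ne
    rw [lintegral_const]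
    exact ENNReal.mul_lt_top (ENNReal.pow_lt_top ENNReal.ofReal_lt_top) (measure_lt_top _ _)
  have hbfin : b ≠ ⊤ := by
    refine (lt_of_le_of_lt (lintegral_mono (fun u => ?_)) (lt_top_iff_ne_top.2 hfin)).ne
    exact Set.indicator_le_self _ _ _
  have hNfin : ∫⁻ u, wN u ^ 20 ∂μ ≠ ⊤ := by
    refine (lt_of_le_of_lt (lintegral_mono (fun u => ?_)) (lt_top_iff_ne_top.2 hfin)).ne
    gcongr
    exact (h.le2 u).trans (h.le1 u)
  -- (1) bad mass
  have h1 : ENNReal.ofReal (1 / 4) * b + ∫⁻ u, wN u ^ 20 ∂μ ≤ ∫⁻ u, w1 u ^ 20 ∂μ := by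
    rw [hb, ← lintegral_const_mul _ ((h.m1.pow_const _).indicator hBm),
      ← lintegral_add_right _ (h.mN.pow_const _)]
    apply lintegral_mono
    intro u
    by_cases hu : u ∈ Bad
    · simp only [Set.indicator_of_mem hu]
      have hu' : wN u ≤ ENNReal.ofReal (98 / 100) * w1 u := le_of_lt hu
      calc ENNReal.ofReal (1 / 4) * w1 u ^ 20 + wN u ^ 20
          ≤ ENNReal.ofReal (1 / 4) * w1 u ^ 20 + (ENNReal.ofReal (98 / 100) * w1 u) ^ 20 := by
            gcongr
        _ = (ENNReal.ofReal (1 / 4) + ENNReal.ofReal (98 / 100) ^ 20) * w1 u ^ 20 := by ring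
        _ ≤ 1 * w1 u ^ 20 := by
            gcongr
            rw [← ENNReal.ofReal_pow (by norm_num), ← ENNReal.ofReal_add (by norm_num) (by norm_num),
              show (1 : ℝ≥0∞) = ENNReal.ofReal 1 by simp]
            apply ENNReal.ofReal_le_ofReal
            norm_num
        _ = w1 u ^ 20 := one_mul _
    · simp only [Set.indicator_of_notMem hu, mul_zero, zero_add]
      gcongr
      exact (h.le2 u).trans (h.le1 u)
  -- (2) pointwise bound of `w2 ^ 20`
  have hpt : ∀ u, w2 u ^ 20 ≤ Bad.indicator (fun u => w1 u ^ 20) u +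
      (∑' k, (A k).indicator (fun _ => wt D k) (R k u) +
        ∑' k, (E k).indicator (fun _ => wt D k) (S k (P u))) := by
    intro u
    by_cases hu0 : w2 u = 0
    · rw [hu0]; simp
    obtain ⟨k, hk1, hk2⟩ := exists_level hD hu0 ((h.le1 u).trans (h.bd u))
    have hω := om_pos hD k
    by_cases hu : u ∈ Bad
    · refine le_trans ?_ le_self_add
      rw [Set.indicator_of_mem hu]
      gcongr
      exact h.le1 u
    · by_cases hR : R k u ∈ Bad
      · refine le_trans ?_ le_add_self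
        refine le_trans ?_ le_self_add
        refine le_trans ?_ (ENNReal.le_tsum k)
        rw [Set.indicator_of_mem]
        · exact hk2
        · exact ⟨hR, h.RC k u hk1⟩
      · refine le_trans ?_ le_add_self
        refine le_trans ?_ le_add_self
        refine le_trans ?_ (ENNReal.le_tsum k)
        rw [Set.indicator_of_mem]
        · exact hk2
        · apply h.GC k u
          · have e : ENNReal.ofReal (98 / 100) * w1 u ≤ wN u := not_lt.1 hu
            refine le_trans ?_ e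
            calc ENNReal.ofReal (95 / 100 * om D k) ≤ ENNReal.ofReal (98 / 100 * om D k) := by
                  apply ENNReal.ofReal_le_ofReal; linarith
              _ = ENNReal.ofReal (98 / 100) * ENNReal.ofReal (om D k) :=
                  ENNReal.ofReal_mul (by norm_num)
              _ ≤ _ := by
                  gcongr
                  exact hk1.trans (h.le1 u)
          · have e : ENNReal.ofReal (98 / 100) * w1 (R k u) ≤ wN (R k u) := not_lt.1 hR
            refine le_trans ?_ e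
            calc ENNReal.ofReal (95 / 100 * om D k) ≤
                  ENNReal.ofReal (98 / 100 * (98 / 100 * om D k)) := by
                  apply ENNReal.ofReal_le_ofReal; linarith
              _ = ENNReal.ofReal (98 / 100) * ENNReal.ofReal (98 / 100 * om D k) :=
                  ENNReal.ofReal_mul (by norm_num)
              _ ≤ _ := by
                  gcongr
                  exact h.RC k u hk1
  -- integrate
  have h2 : ∫⁻ u, w2 u ^ 20 ∂μ ≤ b + (∫⁻ u, ∑' k, (A k).indicator (fun _ => wt D k) u ∂μ +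
      ∫⁻ u, ∑' k, (E k).indicator (fun _ => wt D k) u ∂μ) := by
    refine (lintegral_mono hpt).trans ?_
    have mA : ∀ k, Measurable ((A k).indicator (fun _ : Ω => wt D k)) := fun k =>
      measurable_const.indicator (hAm k)
    have mE : ∀ k, Measurable ((E k).indicator (fun _ : Ω => wt D k)) := fun k =>
      measurable_const.indicator (hEm k)
    have mAR : ∀ k, Measurable (fun u => (A k).indicator (fun _ : Ω => wt D k) (R k u)) :=
      fun k => (mA k).comp (h.mR k).measurable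
    have mES : ∀ k, Measurable (fun u => (E k).indicator (fun _ : Ω => wt D k) (S k (P u))) :=
      fun k => (mE k).comp (h.mS k).measurable
    have eA : ∫⁻ u, ∑' k, (A k).indicator (fun _ : Ω => wt D k) (R k u) ∂μ =
        ∫⁻ u, ∑' k, (A k).indicator (fun _ : Ω => wt D k) u ∂μ := by
      rw [lintegral_tsum (fun k => (mAR k).aemeasurable),
        lintegral_tsum (fun k => (mA k).aemeasurable)]
      exact tsum_congr (fun k => (h.mR k).lintegral_comp (mA k))
    have eE : ∫⁻ u, ∑' k, (E k).indicator (fun _ : Ω => wt D k) (S k (P u)) ∂μ =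
        ∫⁻ u, ∑' k, (E k).indicator (fun _ : Ω => wt D k) u ∂μ := by
      rw [lintegral_tsum (fun k => (mES k).aemeasurable),
        lintegral_tsum (fun k => (mE k).aemeasurable)]
      exact tsum_congr (fun k => (h.mS k).lintegral_comp (mE k))
    have mA' : Measurable (fun u => ∑' k, (A k).indicator (fun _ : Ω => wt D k) (R k u)) :=
      Measurable.tsum mAR
    have mB' : Measurable (fun u => Bad.indicator (fun u => w1 u ^ 20) u) :=
      (h.m1.pow_const _).indicator hBm
    rw [lintegral_add_left mB', lintegral_add_left mA', eA, eE]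
  have h3 : ∫⁻ u, ∑' k, (A k).indicator (fun _ => wt D k) u ∂μ ≤ ENNReal.ofReal 12 * b := by
    rw [hb, ← lintegral_const_mul _ ((h.m1.pow_const _).indicator hBm)]
    apply lintegral_mono
    intro u
    by_cases hu : u ∈ Bad
    · simp only [Set.indicator_of_mem hu]
      have e : ∀ k, (A k).indicator (fun _ => wt D k) u =
          if ENNReal.ofReal (om D k) ≤ ENNReal.ofReal (100 / 98) * w1 u then wt D k else 0 := by
        intro k
        have : u ∈ A k ↔ ENNReal.ofReal (om D k) ≤ ENNReal.ofReal (100 / 98) * w1 u := by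
          simp only [hA, Set.mem_inter_iff, hu, true_and, Set.mem_ofPred_eq]
          have e1 : ENNReal.ofReal (om D k) = ENNReal.ofReal (100 / 98) *
              ENNReal.ofReal (98 / 100 * om D k) := by
            rw [← ENNReal.ofReal_mul (by norm_num)]; congr 1; ring
          rw [e1]
          exact (ENNReal.mul_le_mul_iff_right (by simp) ENNReal.ofReal_ne_top).symm
        by_cases hk : u ∈ A k
        · rw [Set.indicator_of_mem hk, if_pos (this.1 hk)]
        · rw [Set.indicator_of_notMem hk, if_neg (fun hc => hk (this.2 hc))]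
      rw [tsum_congr e]
      refine (tsum_wt hD _).trans ?_
      rw [mul_pow, ← mul_assoc]
      gcongr
      rw [show (8 : ℝ≥0∞) = ENNReal.ofReal 8 by simp, ← ENNReal.ofReal_pow (by norm_num),
        ← ENNReal.ofReal_mul (by norm_num)]
      apply ENNReal.ofReal_le_ofReal
      norm_num
    · have : ∀ k, (A k).indicator (fun _ => wt D k) u = 0 := fun k =>
        Set.indicator_of_notMem (fun hc => hu hc.1) _
      simp [this]
  have h4 : ∫⁻ u, ∑' k, (E k).indicator (fun _ => wt D k) u ∂μ ≤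
      ENNReal.ofReal (43 / 1000) * ∫⁻ u, w1 u ^ 20 ∂μ := by
    rw [← lintegral_const_mul _ (h.m1.pow_const _)]
    apply lintegral_mono
    intro u
    have e : ∀ k, (E k).indicator (fun _ => wt D k) u =
        if ENNReal.ofReal (om D k) ≤ ENNReal.ofReal (10 / 13) * w1 u then wt D k else 0 := by
      intro k
      have : u ∈ E k ↔ ENNReal.ofReal (om D k) ≤ ENNReal.ofReal (10 / 13) * w1 u := by
        simp only [hE, Set.mem_ofPred_eq]
        have e1 : ENNReal.ofReal (om D k) = ENNReal.ofReal (10 / 13) *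
            ENNReal.ofReal (13 / 10 * om D k) := by
          rw [← ENNReal.ofReal_mul (by norm_num)]; congr 1; ring
        rw [e1]
        exact (ENNReal.mul_le_mul_iff_right (by simp) ENNReal.ofReal_ne_top).symm
      by_cases hk : u ∈ E k
      · rw [Set.indicator_of_mem hk, if_pos (this.1 hk)]
      · rw [Set.indicator_of_notMem hk, if_neg (fun hc => hk (this.2 hc))]
    simp only []
    rw [tsum_congr e]
    refine (tsum_wt hD _).trans ?_
    rw [mul_pow, ← mul_assoc]
    gcongr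
    rw [show (8 : ℝ≥0∞) = ENNReal.ofReal 8 by simp, ← ENNReal.ofReal_pow (by norm_num),
      ← ENNReal.ofReal_mul (by norm_num)]
    apply ENNReal.ofReal_le_ofReal
    norm_num
  have h5 : ∫⁻ u, wN u ^ 20 ∂μ ≤ ∫⁻ u, w2 u ^ 20 ∂μ := by
    apply lintegral_mono
    intro u
    simp only []
    gcongr
    exact h.le2 u
  -- pass to real numbers
  set x := ∫⁻ u, w1 u ^ 20 ∂μ with hx
  set y := ∫⁻ u, wN u ^ 20 ∂μ with hy
  have g1 : 1 / 4 * b.toReal + y.toReal ≤ x.toReal := by
    have := ENNReal.toReal_mono hfin h1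
    rwa [ENNReal.toReal_add (ENNReal.mul_ne_top ENNReal.ofReal_ne_top hbfin) hNfin,
      ENNReal.toReal_mul, ENNReal.toReal_ofReal (by norm_num)] at this
  have g2 : y.toReal ≤ b.toReal + (12 * b.toReal + 43 / 1000 * x.toReal) := by
    have hle : y ≤ b + (ENNReal.ofReal 12 * b + ENNReal.ofReal (43 / 1000) * x) :=
      h5.trans (h2.trans (by gcongr))
    have := ENNReal.toReal_mono (by
      refine ENNReal.add_ne_top.2 ⟨hbfin, ENNReal.add_ne_top.2 ⟨?_, ?_⟩⟩
      · exact ENNReal.mul_ne_top ENNReal.ofReal_ne_top hbfin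
      · exact ENNReal.mul_ne_top ENNReal.ofReal_ne_top hfin) hle
    rwa [ENNReal.toReal_add hbfin (ENNReal.add_ne_top.2
      ⟨ENNReal.mul_ne_top ENNReal.ofReal_ne_top hbfin, ENNReal.mul_ne_top ENNReal.ofReal_ne_top hfin⟩),
      ENNReal.toReal_add (ENNReal.mul_ne_top ENNReal.ofReal_ne_top hbfin)
      (ENNReal.mul_ne_top ENNReal.ofReal_ne_top hfin), ENNReal.toReal_mul, ENNReal.toReal_mul,
      ENNReal.toReal_ofReal (by norm_num), ENNReal.toReal_ofReal (by norm_num)] at this
  have hx0 : 0 ≤ x.toReal := ENNReal.toReal_nonneg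
  have g3 : y.toReal ≤ 99 / 100 * x.toReal := by linarith
  rw [← ENNReal.ofReal_toReal hfin, ← ENNReal.ofReal_toReal hNfin, ← ENNReal.ofReal_mul (by norm_num)]
  exact ENNReal.ofReal_le_ofReal g3

/-- **Decay.** `Z n = ∫ (w n)^20` decays like a power of `n`. -/
theorem decay {D : ℝ} (hD : 0 < D) [IsFiniteMeasure μ] {w : ℕ → Ω → ℝ≥0∞} {m₀ : ℕ}
    (hw : ∀ n, Measurable (w n)) (hanti : ∀ m n, m ≤ n → ∀ u, w n u ≤ w m u)
    (hbd : ∀ n, m₀ ≤ n → ∀ u, w n u ≤ ENNReal.ofReal D)
    (P : ℕ → Ω → Ω) (R S : ℝ → Ω → Ω)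
    (hP : ∀ n, MeasurePreserving (P n) μ μ) (hR : ∀ θ, MeasurePreserving (R θ) μ μ)
    (hS : ∀ y, MeasurePreserving (S y) μ μ)
    (RC : ∀ m, m₀ ≤ m → ∀ ω : ℝ, 0 < ω → ω ≤ D → ∀ u, ENNReal.ofReal ω ≤ w (2 * m) u →
      ENNReal.ofReal (98 / 100 * ω) ≤ w m (R (8 / 10 * ω / (100 * m)) u))
    (GC : ∀ m, m₀ ≤ m → ∀ ω : ℝ, 0 < ω → ω ≤ D → ∀ u,
      ENNReal.ofReal (95 / 100 * ω) ≤ w (10000 * m) u →
      ENNReal.ofReal (95 / 100 * ω) ≤ w (10000 * m) (R (8 / 10 * ω / (100 * m)) u) →
      ENNReal.ofReal (13 / 10 * ω) ≤ w m (S (4 / 10 * ω) (P (100 * m) u))) :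
    ∃ C η : ℝ, 0 < η ∧ 0 ≤ C ∧ ∀ n : ℕ, 1 ≤ n → m₀ ≤ n →
      ∫⁻ u, w n u ^ 20 ∂μ ≤ ENNReal.ofReal (C * (n : ℝ) ^ (-η)) := by
  set M : ℕ := max m₀ 1 with hM
  have hM1 : 1 ≤ M := le_max_right _ _
  have hM0 : m₀ ≤ M := le_max_left _ _
  have hstep : ∀ m, M ≤ m → ∫⁻ u, w (10000 * m) u ^ 20 ∂μ ≤
      ENNReal.ofReal (99 / 100) * ∫⁻ u, w m u ^ 20 ∂μ := by
    intro m hm
    refine step hD (w1 := w m) (w2 := w (2 * m)) (wN := w (10000 * m)) (P := P (100 * m))
      (R := fun k => R (8 / 10 * om D k / (100 * m))) (S := fun k => S (4 / 10 * om D k))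
      { m1 := hw _, m2 := hw _, mN := hw _
        le1 := hanti _ _ (by omega)
        le2 := hanti _ _ (by omega)
        bd := hbd _ (by omega)
        mR := fun k => hR _
        mS := fun k => (hS _).comp (hP _)
        RC := fun k u h => RC m (by omega) _ (om_pos hD k) (om_le hD k) u h
        GC := fun k u h h' => GC m (by omega) _ (om_pos hD k) (om_le hD k) u h h' }
  have hZfin : ∫⁻ u, w M u ^ 20 ∂μ ≠ ⊤ := by
    have : ∫⁻ u, w M u ^ 20 ∂μ ≤ ∫⁻ _, ENNReal.ofReal D ^ 20 ∂μ :=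
      lintegral_mono (fun u => by gcongr; exact hbd _ hM0 u)
    refine (lt_of_le_of_lt this ?_).ne
    rw [lintegral_const]
    exact ENNReal.mul_lt_top (ENNReal.pow_lt_top ENNReal.ofReal_lt_top) (measure_lt_top _ _)
  set Z : ℝ := (∫⁻ u, w M u ^ 20 ∂μ).toReal with hZ
  have hZ0 : 0 ≤ Z := ENNReal.toReal_nonneg
  have hiter : ∀ k : ℕ, ∫⁻ u, w (10000 ^ k * M) u ^ 20 ∂μ ≤ ENNReal.ofReal ((99 / 100) ^ k * Z) := by
    intro k
    induction k with
    | zero => simp [hZ, ENNReal.ofReal_toReal hZfin]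
    | succ k ih =>
      have hge : M ≤ 10000 ^ k * M := Nat.le_mul_of_pos_left _ (by positivity)
      have h1 := hstep _ hge
      rw [show 10000 * (10000 ^ k * M) = 10000 ^ (k + 1) * M by ring] at h1
      refine h1.trans ?_
      calc ENNReal.ofReal (99 / 100) * ∫⁻ u, w (10000 ^ k * M) u ^ 20 ∂μ
          ≤ ENNReal.ofReal (99 / 100) * ENNReal.ofReal ((99 / 100) ^ k * Z) := by gcongr
        _ = ENNReal.ofReal ((99 / 100) ^ (k + 1) * Z) := by
          rw [← ENNReal.ofReal_mul (by norm_num)]; congr 1; ring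
  -- the exponent
  set η : ℝ := -Real.log (99 / 100) / Real.log 10000 with hη
  have hl1 : 0 < -Real.log (99 / 100) := by
    have := Real.log_neg (show (0 : ℝ) < 99 / 100 by norm_num) (by norm_num)
    linarith
  have hl2 : 0 < Real.log 10000 := Real.log_pos (by norm_num)
  have hη0 : 0 < η := div_pos hl1 hl2
  have hpow : (10000 : ℝ) ^ (-η) = 99 / 100 := by
    rw [Real.rpow_def_of_pos (by norm_num), hη]
    rw [show Real.log 10000 * -(-Real.log (99 / 100) / Real.log 10000) = Real.log (99 / 100) by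
      field_simp]
    exact Real.exp_log (by norm_num)
  -- constants
  set Z0 : ℝ := (μ Set.univ).toReal * D ^ 20 with hZ0'
  refine ⟨(100 / 99 * Z + Z0) * (M : ℝ) ^ η, η, hη0, by positivity, ?_⟩
  intro n hn1 hn0
  have hMpos : (0 : ℝ) < M := by exact_mod_cast hM1
  have hnpos : (0 : ℝ) < n := by exact_mod_cast hn1
  by_cases hnM : n < M
  · -- trivial bound
    have h1 : ∫⁻ u, w n u ^ 20 ∂μ ≤ ENNReal.ofReal Z0 := by
      calc ∫⁻ u, w n u ^ 20 ∂μ ≤ ∫⁻ _, ENNReal.ofReal D ^ 20 ∂μ :=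
            lintegral_mono (fun u => by gcongr; exact hbd _ hn0 u)
        _ = ENNReal.ofReal Z0 := by
            rw [lintegral_const, hZ0', ENNReal.ofReal_mul ENNReal.toReal_nonneg,
              ENNReal.ofReal_toReal (measure_ne_top _ _), ENNReal.ofReal_pow hD.le, mul_comm]
    refine h1.trans (ENNReal.ofReal_le_ofReal ?_)
    have e : (M : ℝ) ^ η * (n : ℝ) ^ (-η) = ((M : ℝ) / n) ^ η := by
      rw [Real.rpow_neg hnpos.le, ← div_eq_mul_inv, Real.div_rpow hMpos.le hnpos.le]
    have e1 : 1 ≤ ((M : ℝ) / n) ^ η := by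
      apply Real.one_le_rpow _ hη0.le
      rw [le_div_iff₀ hnpos, one_mul]
      exact_mod_cast hnM.le
    rw [mul_assoc, e]
    have : 0 ≤ Z0 := by positivity
    nlinarith
  · push Not at hnM
    -- `10000^k M ≤ n < 10000^(k+1) M`
    obtain ⟨k, hk1, hk2⟩ : ∃ k, 10000 ^ k * M ≤ n ∧ n < 10000 ^ (k + 1) * M := by
      have hex : ∃ k, n < 10000 ^ k * M := by
        refine ⟨n, lt_of_lt_of_le (Nat.lt_pow_self (by norm_num)) (Nat.le_mul_of_pos_right _ hM1)⟩
      classical
      set k := Nat.find hex with hk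
      have h1 : n < 10000 ^ k * M := Nat.find_spec hex
      have h0 : k ≠ 0 := by
        intro h0; rw [h0] at h1; omega
      obtain ⟨j, hj⟩ := Nat.exists_eq_succ_of_ne_zero h0
      refine ⟨j, ?_, by rw [← Nat.succ_eq_add_one, ← hj]; exact h1⟩
      exact not_lt.1 (Nat.find_min hex (by omega))
    have h1 : ∫⁻ u, w n u ^ 20 ∂μ ≤ ENNReal.ofReal ((99 / 100) ^ k * Z) := by
      refine le_trans (lintegral_mono (fun u => ?_)) (hiter k)
      simp only []
      gcongr
      exact hanti _ _ hk1 u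
    refine h1.trans (ENNReal.ofReal_le_ofReal ?_)
    -- (99/100)^(k+1) = (10000^(k+1))^(-η) ≤ (n/M)^(-η)
    have e1 : ((99 : ℝ) / 100) ^ (k + 1) = ((10000 : ℝ) ^ (k + 1)) ^ (-η) := by
      rw [← hpow, ← Real.rpow_natCast, ← Real.rpow_mul (by norm_num), ← Real.rpow_natCast,
        ← Real.rpow_mul (by norm_num), mul_comm]
    have e2 : ((10000 : ℝ) ^ (k + 1)) ^ (-η) ≤ ((n : ℝ) / M) ^ (-η) := by
      apply Real.rpow_le_rpow_of_nonpos (by positivity) _ (by linarith)
      rw [div_le_iff₀ hMpos]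
      exact_mod_cast hk2.le
    have e3 : ((n : ℝ) / M) ^ (-η) = (M : ℝ) ^ η * (n : ℝ) ^ (-η) := by
      rw [Real.div_rpow hnpos.le hMpos.le, Real.rpow_neg hMpos.le, div_inv_eq_mul, mul_comm]
    have e4 : ((99 : ℝ) / 100) ^ k = 100 / 99 * (99 / 100) ^ (k + 1) := by
      rw [pow_succ]; ring
    have e5 : 0 ≤ (M : ℝ) ^ η * (n : ℝ) ^ (-η) := by positivity
    have e6 : 0 ≤ Z0 := by positivity
    calc ((99 : ℝ) / 100) ^ k * Z = 100 / 99 * Z * (99 / 100) ^ (k + 1) := by rw [e4]; ring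
      _ ≤ 100 / 99 * Z * ((M : ℝ) ^ η * (n : ℝ) ^ (-η)) := by
        apply mul_le_mul_of_nonneg_left _ (by positivity)
        rw [← e3, e1]; exact e2
      _ ≤ (100 / 99 * Z + Z0) * ((M : ℝ) ^ η * (n : ℝ) ^ (-η)) := by
        apply mul_le_mul_of_nonneg_right _ e5
        linarith
      _ = _ := by ring

end FlatDecay
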