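import Pool.Agent.H72.Flat.NearFlat

/-! Isolation of a periodic flat line: pure ODE part (Step 6). -/

namespace NearFlat

open Set

variable {G G1 Kc : ℝ → ℝ → ℝ} {t y φ : ℝ → ℝ}

/-- one-sided version of `ratio_le` -/
theorem Fermi.ratio_le_pos (h : Fermi G G1 Kc) {t κ y : ℝ} (hy : 0 ≤ y)
    (hκ : ∀ z ∈ Icc 0 y, -Kc t z ≤ κ) : G1 t y / G t y ≤ κ * y := by
  have hd : ∀ y, HasDerivAt (fun y => G1 t y / G t y - κ * y)
      (-Kc t y - (G1 t y / G t y) ^ 2 - κ) y := by
    intro y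
    have := (h.hasDerivAt_ratio t y).sub ((hasDerivAt_id y).const_mul κ)
    refine HasDerivAt.congr_deriv (f := fun y => G1 t y / G t y - κ * y) this ?_
    simp
  have hanti : AntitoneOn (fun y => G1 t y / G t y - κ * y) (Icc 0 y) := by
    apply antitoneOn_of_deriv_nonpos (convex_Icc _ _)
    · exact fun z _ => (hd z).continuousAt.continuousWithinAt
    · exact fun z _ => (hd z).differentiableAt.differentiableWithinAt
    · intro z hz
      rw [interior_Icc] at hz
      rw [(hd z).deriv]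
      have := hκ z ⟨hz.1.le, hz.2.le⟩
      have := sq_nonneg (G1 t z / G t z)
      linarith
  have h1 := hanti (left_mem_Icc.2 hy) (right_mem_Icc.2 hy) hy
  have e0 : G1 t 0 / G t 0 - κ * 0 = 0 := by simp [h.G10]
  simp only [e0] at h1
  linarith

theorem Fermi.G_le (h : Fermi G G1 Kc) {t κ r y : ℝ} (hy : 0 ≤ y) (hyr : y ≤ r) (hκ0 : 0 ≤ κ)
    (hκ : ∀ z, -Kc t z ≤ κ) (hκr : κ * r ^ 2 ≤ 1 / 4) : G t y ≤ 4 / 3 := by
  have hr : 0 ≤ r := hy.trans hyr
  have hd : ∀ z, HasDerivAt (fun z => G t z * Real.exp (-(κ * r) * z))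
      (G1 t z * Real.exp (-(κ * r) * z) + G t z * (Real.exp (-(κ * r) * z) * (-(κ * r)))) z := by
    intro z
    have h1 : HasDerivAt (fun z => Real.exp (-(κ * r) * z))
        (Real.exp (-(κ * r) * z) * (-(κ * r))) z := by
      have := (hasDerivAt_id z).const_mul (-(κ * r))
      simpa using this.exp
    exact (h.dG t z).mul h1
  have hanti : AntitoneOn (fun z => G t z * Real.exp (-(κ * r) * z)) (Icc 0 r) := by
    apply antitoneOn_of_deriv_nonpos (convex_Icc _ _)
    · exact fun z _ => (hd z).continuousAt.continuousWithinAt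
    · exact fun z _ => (hd z).differentiableAt.differentiableWithinAt
    · intro z hz
      rw [interior_Icc] at hz
      rw [(hd z).deriv]
      have h1 := h.ratio_le_pos (t := t) hz.1.le (fun w _ => hκ w)
      have h2 : G1 t z ≤ κ * z * G t z := by
        rwa [div_le_iff₀ (h.G_pos t z)] at h1
      have h3 : κ * z ≤ κ * r := mul_le_mul_of_nonneg_left hz.2.le hκ0
      have h4 : κ * z * G t z ≤ κ * r * G t z := mul_le_mul_of_nonneg_right h3 (h.G_pos t z).le
      have h5 := Real.exp_pos (-(κ * r) * z)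
      have h6 : 0 ≤ (κ * r * G t z - G1 t z) * Real.exp (-(κ * r) * z) :=
        mul_nonneg (by linarith) h5.le
      linarith
  have h1 := hanti (left_mem_Icc.2 hr) ⟨hy, hyr⟩ hy
  simp only [mul_zero, Real.exp_zero, mul_one, h.G0] at h1
  have h2 : κ * r * y ≤ 1 / 4 := by
    have : κ * r * y ≤ κ * r * r := mul_le_mul_of_nonneg_left hyr (by positivity)
    nlinarith
  have h3 : G t y ≤ Real.exp (κ * r * y) := by
    have e : Real.exp (-(κ * r) * y) = (Real.exp (κ * r * y))⁻¹ := by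
      rw [← Real.exp_neg]; congr 1; ring
    rw [e] at h1
    have h5 := Real.exp_pos (κ * r * y)
    rw [← div_eq_mul_inv, div_le_one h5] at h1
    exact h1
  have h4 : Real.exp (κ * r * y) ≤ Real.exp (1 / 4) := Real.exp_le_exp.2 h2
  have h5 := Real.exp_bound_div_one_sub_of_interval (x := 1 / 4) (by norm_num) (by norm_num)
  norm_num at h5
  have h6 : Real.exp (1 / 4) ≤ 4 / 3 := by norm_num; exact h5
  linarith

/-- derivative of `sin φ` along a geodesic -/
theorem Sol.dp (S : Sol G G1 t y φ) (s : ℝ) :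
    HasDerivAt (fun s => Real.sin (φ s))
      (G1 (t s) (y s) / G (t s) (y s) * Real.cos (φ s) ^ 2) s := by
  have := (S.dφ s).sin
  refine HasDerivAt.congr_deriv (f := fun s => Real.sin (φ s)) this ?_
  ring

theorem Sol.mono_yp (h : Fermi G G1 Kc) (S : Sol G G1 t y φ) :
    Monotone (fun s => y s * Real.sin (φ s)) := by
  apply monotone_of_hasDerivAt_nonneg (fun s => (S.dy s).mul (S.dp s))
  intro s
  simp only [Pi.zero_apply]
  have h1 : 0 ≤ y s * (G1 (t s) (y s) / G (t s) (y s)) := by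
    rcases le_total 0 (y s) with hy | hy
    · exact mul_nonneg hy (div_nonneg (h.G1_nonneg hy) (h.G_pos _ _).le)
    · exact mul_nonneg_of_nonpos_of_nonpos hy
        (div_nonpos_of_nonpos_of_nonneg (h.G1_nonpos hy) (h.G_pos _ _).le)
  have h2 : 0 ≤ y s * (G1 (t s) (y s) / G (t s) (y s)) * Real.cos (φ s) ^ 2 :=
    mul_nonneg h1 (sq_nonneg _)
  have h3 : 0 ≤ Real.sin (φ s) * Real.sin (φ s) := mul_self_nonneg _
  linarith

theorem Sol.cont_y (S : Sol G G1 t y φ) : Continuous y :=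
  continuous_iff_continuousAt.2 (fun s => (S.dy s).continuousAt)

theorem Sol.cont_t (S : Sol G G1 t y φ) : Continuous t :=
  continuous_iff_continuousAt.2 (fun s => (S.dt s).continuousAt)

theorem Sol.cont_φ (S : Sol G G1 t y φ) : Continuous φ :=
  continuous_iff_continuousAt.2 (fun s => (S.dφ s).continuousAt)

theorem Sol.pos (h : Fermi G G1 Kc) (S : Sol G G1 t y φ) (ha : 0 ≤ y 0)
    (hb : 0 ≤ Real.sin (φ 0)) (hab : 0 < y 0 ∨ 0 < Real.sin (φ 0)) :
    ∀ s, 0 < s → 0 < y s := by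
  have hyp : ∀ s, 0 ≤ s → 0 ≤ y s * Real.sin (φ s) := by
    intro s hs
    have := S.mono_yp h hs
    simp only at this
    exact (mul_nonneg ha hb).trans this
  have hsq : MonotoneOn (fun s => y s ^ 2) (Ici 0) := by
    have hd : ∀ s, HasDerivAt (fun s => y s ^ 2) (2 * (y s * Real.sin (φ s))) s := by
      intro s
      have := (S.dy s).pow 2
      refine HasDerivAt.congr_deriv (f := fun s => y s ^ 2) this ?_
      norm_num
      ring
    apply monotoneOn_of_deriv_nonneg (convex_Ici _)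
    · exact fun z _ => (hd z).continuousAt.continuousWithinAt
    · exact fun z _ => (hd z).differentiableAt.differentiableWithinAt
    · intro z hz
      rw [interior_Ici] at hz
      rw [(hd z).deriv]
      have := hyp z (le_of_lt hz)
      linarith
  have hne : ∀ s, 0 < s → y s ≠ 0 := by
    intro s hs h0
    have hz : ∀ s' ∈ Icc 0 s, y s' = 0 := by
      intro s' hs'
      have := hsq hs'.1 hs.le hs'.2
      simp only [h0] at this
      have h2 : y s' ^ 2 = 0 := le_antisymm (by simpa using this) (sq_nonneg _)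
      exact pow_eq_zero_iff (by norm_num) |>.1 h2
    have h00 := hz 0 ⟨le_rfl, hs.le⟩
    have hb' : 0 < Real.sin (φ 0) := by
      rcases hab with h1 | h1
      · linarith
      · exact h1
    have d1 : HasDerivWithinAt y (Real.sin (φ 0)) (Icc 0 s) 0 := (S.dy 0).hasDerivWithinAt
    have d2 : HasDerivWithinAt y 0 (Icc 0 s) 0 :=
      (hasDerivWithinAt_const (0 : ℝ) (Icc 0 s) (0 : ℝ)).congr (fun x hx => hz x hx) h00
    have := UniqueDiffWithinAt.eq_deriv _ ((uniqueDiffOn_Icc hs) 0 ⟨le_rfl, hs.le⟩) d1 d2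
    linarith
  -- positive somewhere arbitrarily early
  have hex : ∀ s, 0 < s → ∃ s' ∈ Icc 0 s, 0 < y s' := by
    intro s hs
    rcases hab with h1 | h1
    · exact ⟨0, ⟨le_rfl, hs.le⟩, h1⟩
    · have hcont : ContinuousAt (fun s => Real.sin (φ s)) 0 := (S.dp 0).continuousAt
      have hev := hcont.eventually (lt_mem_nhds h1)
      obtain ⟨δ, hδ, hδ'⟩ := Metric.eventually_nhds_iff.1 hev
      set r := min (δ / 2) s with hr
      have hr0 : 0 < r := lt_min (by linarith) hs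
      refine ⟨r, ⟨hr0.le, min_le_right _ _⟩, ?_⟩
      have hmono : StrictMonoOn y (Icc 0 r) := by
        apply strictMonoOn_of_deriv_pos (convex_Icc _ _) S.cont_y.continuousOn
        intro z hz
        rw [interior_Icc] at hz
        rw [(S.dy z).deriv]
        apply hδ'
        rw [Real.dist_eq, sub_zero, abs_of_pos hz.1]
        have := min_le_left (δ / 2) s
        linarith [hz.2]
      have := hmono (left_mem_Icc.2 hr0.le) (right_mem_Icc.2 hr0.le) hr0
      linarith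
  intro s hs
  by_contra hc
  push Not at hc
  obtain ⟨s', hs', hpos⟩ := hex s hs
  have hlt : y s < 0 := lt_of_le_of_ne hc (hne s hs)
  have hmem : (0 : ℝ) ∈ y '' Icc s' s := by
    apply intermediate_value_Icc' hs'.2 S.cont_y.continuousOn
    exact ⟨hlt.le, hpos.le⟩
  obtain ⟨z, hz, hz0⟩ := hmem
  rcases eq_or_lt_of_le (hs'.1.trans hz.1) with h0 | h0
  · have : s' = z := le_antisymm hz.1 (by rw [← h0]; exact hs'.1)
    rw [← this] at hz0
    linarith
  · exact hne z h0 hz0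

/-- hypotheses for a geodesic moving upwards -/
structure Up (G G1 Kc : ℝ → ℝ → ℝ) (t y φ : ℝ → ℝ) : Prop where
  fermi : Fermi G G1 Kc
  sol : Sol G G1 t y φ
  ha : 0 ≤ y 0
  hb : 0 ≤ Real.sin (φ 0)
  hcos : 0 < Real.cos (φ 0)
  hpos : ∀ s, 0 < s → 0 < y s

theorem Up.nonneg (U : Up G G1 Kc t y φ) {s : ℝ} (hs : 0 ≤ s) : 0 ≤ y s := by
  rcases eq_or_lt_of_le hs with h0 | h0
  · rw [← h0]; exact U.ha
  · exact (U.hpos s h0).le

theorem Up.mono_p (U : Up G G1 Kc t y φ) : MonotoneOn (fun s => Real.sin (φ s)) (Ici 0) := by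
  apply monotoneOn_of_deriv_nonneg (convex_Ici _)
  · exact fun z _ => (U.sol.dp z).continuousAt.continuousWithinAt
  · exact fun z _ => (U.sol.dp z).differentiableAt.differentiableWithinAt
  · intro z hz
    rw [interior_Ici] at hz
    rw [(U.sol.dp z).deriv]
    exact mul_nonneg (div_nonneg (U.fermi.G1_nonneg (U.hpos z hz).le) (U.fermi.G_pos _ _).le)
      (sq_nonneg _)

theorem Up.p_nonneg (U : Up G G1 Kc t y φ) {s : ℝ} (hs : 0 ≤ s) : 0 ≤ Real.sin (φ s) := by
  have := U.mono_p (mem_Ici.2 le_rfl) (mem_Ici.2 hs) hs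
  simp only at this
  exact U.hb.trans this

theorem Up.adv_le (U : Up G G1 Kc t y φ) {s1 s2 : ℝ} (h1 : 0 ≤ s1) (h12 : s1 ≤ s2) :
    y s2 - y s1 ≤ Real.sin (φ s2) * (s2 - s1) := by
  apply Convex.image_sub_le_mul_sub_of_deriv_le (convex_Icc s1 s2) U.sol.cont_y.continuousOn
    (fun z _ => (U.sol.dy z).differentiableAt.differentiableWithinAt) ?_ s1
    (left_mem_Icc.2 h12) s2 (right_mem_Icc.2 h12) h12
  intro z hz
  rw [interior_Icc] at hz
  rw [(U.sol.dy z).deriv]
  exact U.mono_p (mem_Ici.2 (h1.trans hz.1.le)) (mem_Ici.2 (h1.trans h12)) hz.2.le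

theorem Up.le_adv (U : Up G G1 Kc t y φ) {s1 s2 : ℝ} (h1 : 0 ≤ s1) (h12 : s1 ≤ s2) :
    Real.sin (φ s1) * (s2 - s1) ≤ y s2 - y s1 := by
  apply Convex.mul_sub_le_image_sub_of_le_deriv (convex_Icc s1 s2) U.sol.cont_y.continuousOn
    (fun z _ => (U.sol.dy z).differentiableAt.differentiableWithinAt) ?_ s1
    (left_mem_Icc.2 h12) s2 (right_mem_Icc.2 h12) h12
  intro z hz
  rw [interior_Icc] at hz
  rw [(U.sol.dy z).deriv]
  exact U.mono_p (mem_Ici.2 h1) (mem_Ici.2 (h1.trans hz.1.le)) hz.1.le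

theorem Up.mono_y (U : Up G G1 Kc t y φ) {s1 s2 : ℝ} (h1 : 0 ≤ s1) (h12 : s1 ≤ s2) :
    y s1 ≤ y s2 := by
  have := U.le_adv h1 h12
  have h2 := mul_nonneg (U.p_nonneg h1) (sub_nonneg.2 h12)
  linarith

theorem Up.cos_ge (U : Up G G1 Kc t y φ) {x : ℝ} (hx : 0 ≤ x) (hp : Real.sin (φ x) ≤ 1 / 2)
    {s : ℝ} (hs : s ∈ Icc 0 x) : 2 / 3 ≤ Real.cos (φ s) := by
  have hsq : ∀ s ∈ Icc 0 x, 3 / 4 ≤ Real.cos (φ s) ^ 2 := by
    intro s hs
    have h1 := U.mono_p (mem_Ici.2 hs.1) (mem_Ici.2 hx) hs.2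
    simp only at h1
    have h2 := U.p_nonneg hs.1
    have h3 := Real.sin_sq_add_cos_sq (φ s)
    nlinarith
  have hpos : 0 < Real.cos (φ s) := by
    by_contra hc
    push Not at hc
    have hcont : ContinuousOn (fun s => Real.cos (φ s)) (Icc 0 s) :=
      (Real.continuous_cos.comp U.sol.cont_φ).continuousOn
    have : (0 : ℝ) ∈ (fun s => Real.cos (φ s)) '' Icc 0 s :=
      intermediate_value_Icc' hs.1 hcont ⟨hc, U.hcos.le⟩
    obtain ⟨z, hz, hz0⟩ := this
    have := hsq z ⟨hz.1, hz.2.trans hs.2⟩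
    simp only at hz0
    rw [hz0] at this
    norm_num at this
  have := hsq s hs
  nlinarith

theorem Up.t_adv (U : Up G G1 Kc t y φ) {κ ys x : ℝ} (hκ0 : 0 ≤ κ) (hκ : ∀ t z, -Kc t z ≤ κ)
    (hys : κ * ys ^ 2 ≤ 1 / 4) (hx : 0 ≤ x) (hp : Real.sin (φ x) ≤ 1 / 2) (hyx : y x ≤ ys)
    {s1 s2 : ℝ} (h1 : 0 ≤ s1) (h12 : s1 ≤ s2) (h2 : s2 ≤ x) :
    1 / 2 * (s2 - s1) ≤ t s2 - t s1 := by
  apply Convex.mul_sub_le_image_sub_of_le_deriv (convex_Icc s1 s2) U.sol.cont_t.continuousOn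
    (fun z _ => (U.sol.dt z).differentiableAt.differentiableWithinAt) ?_ s1
    (left_mem_Icc.2 h12) s2 (right_mem_Icc.2 h12) h12
  intro z hz
  rw [interior_Icc] at hz
  rw [(U.sol.dt z).deriv]
  have hz0 : 0 ≤ z := h1.trans hz.1.le
  have hzx : z ≤ x := hz.2.le.trans h2
  have hc := U.cos_ge hx hp ⟨hz0, hzx⟩
  have hG := U.fermi.G_le (t := t z) (U.nonneg hz0) ((U.mono_y hz0 hzx).trans hyx) hκ0
    (fun w => hκ _ w) hys
  rw [le_div_iff₀ (U.fermi.G_pos _ _)]
  linarith

/-- Kc vanishes near every point below the curve -/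
theorem Up.near_zero (U : Up G G1 Kc t y φ) {l κ C ys : ℝ} (hl : 0 < l)
    (hper : ∀ t y, Kc (t + l) y = Kc t y) (hκ0 : 0 ≤ κ) (hκ : ∀ t z, -Kc t z ≤ κ) (hC0 : 0 ≤ C)
    (hC : ∀ t y z, Kc t z = 0 → -Kc t y ≤ C * (y - z) ^ 2) (hz : ∀ t, Kc t 0 = 0)
    (hflat : ∀ s, 0 ≤ s → Kc (t s) (y s) = 0) (hys : κ * ys ^ 2 ≤ 1 / 4)
    {x : ℝ} (hx : 0 ≤ x) (hp : Real.sin (φ x) ≤ 1 / 2) (hyx : y x ≤ ys)
    (th yh : ℝ) (hyh : yh ∈ Icc 0 (y x)) :
    -Kc th yh ≤ C * (y 0 + 2 * l * Real.sin (φ x)) ^ 2 := by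
  have hpx := U.p_nonneg hx
  have ha := U.ha
  -- it suffices to find a zero at distance at most `q`
  have key : ∀ z, Kc th z = 0 → z ≤ yh → yh - z ≤ y 0 + 2 * l * Real.sin (φ x) →
      -Kc th yh ≤ C * (y 0 + 2 * l * Real.sin (φ x)) ^ 2 := by
    intro z h1 h2 h3
    refine (hC th yh z h1).trans (mul_le_mul_of_nonneg_left ?_ hC0)
    exact pow_le_pow_left₀ (by linarith) h3 2
  have h2l : 0 ≤ 2 * l * Real.sin (φ x) := by positivity
  rcases le_total yh (y 0) with h1 | h1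
  · apply key 0 (hz th) hyh.1
    linarith
  · have : yh ∈ y '' Icc 0 x :=
      intermediate_value_Icc hx U.sol.cont_y.continuousOn ⟨h1, hyh.2⟩
    obtain ⟨σ, hσ, hσy⟩ := this
    have hpσ : Real.sin (φ σ) ≤ Real.sin (φ x) :=
      U.mono_p (mem_Ici.2 hσ.1) (mem_Ici.2 hx) hσ.2
    have hpσ0 := U.p_nonneg hσ.1
    rcases le_total σ (2 * l) with h2 | h2
    · apply key 0 (hz th) hyh.1
      have := U.adv_le le_rfl hσ.1
      rw [hσy, sub_zero] at this
      have h3 : Real.sin (φ σ) * σ ≤ Real.sin (φ x) * (2 * l) :=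
        mul_le_mul hpσ h2 hσ.1 hpx
      linarith
    · have hperk : ∀ (n : ℤ) (z : ℝ), Kc (th + n • l) z = Kc th z := by
        intro n z
        have hP : Function.Periodic (fun t => Kc t z) l := fun t => hper t z
        exact (hP.zsmul n) th
      obtain ⟨n, hn, _⟩ := existsUnique_add_zsmul_mem_Ioc hl th (t σ - l)
      simp only [sub_add_cancel] at hn
      have hadv := U.t_adv hκ0 hκ hys hx hp hyx (s1 := σ - 2 * l) (s2 := σ) (by linarith)
        (by linarith) hσ.2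
      have : th + n • l ∈ t '' Icc (σ - 2 * l) σ :=
        intermediate_value_Icc (by linarith) U.sol.cont_t.continuousOn
          ⟨by linarith [hn.1], hn.2⟩
      obtain ⟨σ', hσ', hσt⟩ := this
      have hσ'0 : 0 ≤ σ' := by linarith [hσ'.1]
      have hK : Kc th (y σ') = 0 := by
        rw [← hperk n, ← hσt]
        exact hflat σ' hσ'0
      apply key _ hK
      · rw [← hσy]
        exact U.mono_y hσ'0 hσ'.2
      · have := U.adv_le hσ'0 hσ'.2
        rw [hσy] at this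
        have h3 : Real.sin (φ σ) * (σ - σ') ≤ Real.sin (φ x) * (2 * l) :=
          mul_le_mul hpσ (by linarith [hσ'.1]) (by linarith [hσ'.2]) hpx
        linarith

theorem Up.slope_bound (U : Up G G1 Kc t y φ) {l κ C ys M : ℝ} (hl : 0 < l)
    (hper : ∀ t y, Kc (t + l) y = Kc t y) (hκ0 : 0 ≤ κ) (hκ : ∀ t z, -Kc t z ≤ κ) (hC0 : 0 < C)
    (hC : ∀ t y z, Kc t z = 0 → -Kc t y ≤ C * (y - z) ^ 2) (hz : ∀ t, Kc t 0 = 0)
    (hflat : ∀ s, 0 ≤ s → Kc (t s) (y s) = 0) (hys : κ * ys ^ 2 ≤ 1 / 4)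
    (hys2 : 4 * l ^ 2 * C * ys ^ 2 ≤ 1 / 2) (hM1 : 2 * y 0 < M)
    (hM2 : y 0 + 2 * l * Real.sin (φ 0) < M) (hM3 : M ≤ l / 2)
    {T : ℝ} (hT : 0 ≤ T) (hyT : y T ≤ ys) : y 0 + 2 * l * Real.sin (φ T) ≤ 2 * M := by
  set q : ℝ → ℝ := fun s => y 0 + 2 * l * Real.sin (φ s) with hq
  set E : ℝ → ℝ := fun s => Real.exp (-(4 * l ^ 2 * C) * y s ^ 2) with hE
  have dq : ∀ s, HasDerivAt q
      (2 * l * (G1 (t s) (y s) / G (t s) (y s) * Real.cos (φ s) ^ 2)) s := by
    intro s
    exact ((U.sol.dp s).const_mul (2 * l)).const_add (y 0)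
  have dE : ∀ s, HasDerivAt E (E s * (-(4 * l ^ 2 * C) * (2 * (y s * Real.sin (φ s))))) s := by
    intro s
    have h1 : HasDerivAt (fun s => y s ^ 2) (2 * (y s * Real.sin (φ s))) s := by
      have := (U.sol.dy s).pow 2
      refine HasDerivAt.congr_deriv (f := fun s => y s ^ 2) this ?_
      norm_num
      ring
    exact (h1.const_mul (-(4 * l ^ 2 * C))).exp
  have hE2 : ∀ s, 0 ≤ s → s ≤ T → 1 / 2 ≤ E s := by
    intro s hs hsT
    have h1 : y s ≤ ys := (U.mono_y hs hsT).trans hyT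
    have h0 := U.nonneg hs
    have h2 : y s ^ 2 ≤ ys ^ 2 := pow_le_pow_left₀ h0 h1 2
    have h3 : 4 * l ^ 2 * C * y s ^ 2 ≤ 1 / 2 :=
      (mul_le_mul_of_nonneg_left h2 (by positivity)).trans hys2
    have h4 := Real.add_one_le_exp (-(4 * l ^ 2 * C) * y s ^ 2)
    simp only [hE]
    linarith
  have hE1 : ∀ s, E s ≤ 1 := by
    intro s
    simp only [hE]
    rw [Real.exp_le_one_iff]
    have : 0 ≤ 4 * l ^ 2 * C * y s ^ 2 := by positivity
    linarith
  have hEpos : ∀ s, 0 < E s := fun s => Real.exp_pos _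
  have hq0 : ∀ s, 0 ≤ s → 0 ≤ q s := by
    intro s hs
    have := U.p_nonneg hs
    have h2 := U.ha
    simp only [hq]
    positivity
  have hmain : ∀ x ∈ Icc 0 T, q x * E x ≤ M := by
    intro x hx
    refine image_le_of_deriv_right_lt_deriv_boundary (f := fun s => q s * E s)
      (f' := fun s => 2 * l * (G1 (t s) (y s) / G (t s) (y s) * Real.cos (φ s) ^ 2) * E s +
        q s * (E s * (-(4 * l ^ 2 * C) * (2 * (y s * Real.sin (φ s))))))
      (a := 0) (b := T) (B := fun _ => M) (B' := fun _ => 0) ?_ ?_ ?_ ?_ ?_ hx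
    · exact fun s _ => ((dq s).mul (dE s)).continuousAt.continuousWithinAt
    · exact fun s _ => ((dq s).mul (dE s)).hasDerivWithinAt
    · have h1 : q 0 * E 0 ≤ q 0 * 1 := mul_le_mul_of_nonneg_left (hE1 0) (hq0 0 le_rfl)
      simp only [hq] at h1 ⊢
      linarith
    · exact fun s => hasDerivAt_const _ _
    · intro s hs hcon
      have hs0 : 0 ≤ s := hs.1
      have hsT : s ≤ T := hs.2.le
      have hqs := hq0 s hs0
      have hEs := hE2 s hs0 hsT
      have hEs1 := hE1 s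
      -- q s ≤ 2 M
      have h1 : q s ≤ 2 * M := by
        have : q s * (1 / 2) ≤ q s * E s := mul_le_mul_of_nonneg_left hEs hqs
        linarith
      have h2 : M ≤ q s := by
        have : q s * E s ≤ q s * 1 := mul_le_mul_of_nonneg_left hEs1 hqs
        linarith
      have hps : Real.sin (φ s) ≤ 1 / 2 := by
        have h3 : q s ≤ l := by linarith
        simp only [hq] at h3
        have h4 := U.ha
        have h5 : 2 * l * Real.sin (φ s) ≤ l := by linarith
        by_contra hc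
        push Not at hc
        have : 2 * l * (1 / 2) < 2 * l * Real.sin (φ s) :=
          mul_lt_mul_of_pos_left hc (by linarith)
        linarith
      have hspos : 0 < s := by
        rcases eq_or_lt_of_le hs0 with h0 | h0
        · exfalso
          have h3 : q 0 * E 0 ≤ q 0 * 1 := mul_le_mul_of_nonneg_left (hE1 0) (hq0 0 le_rfl)
          rw [← h0] at hcon
          simp only [hq] at h3 hcon
          linarith
        · exact h0
      have hys' := U.hpos s hspos
      have hyle : y s ≤ ys := (U.mono_y hs0 hsT).trans hyT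
      have hratio := U.fermi.ratio_le_pos (t := t s) (κ := C * q s ^ 2) hys'.le
        (fun z hz' => U.near_zero hl hper hκ0 hκ hC0.le hC hz hflat hys hs0 hps hyle (t s) z hz')
      have hr0 : 0 ≤ G1 (t s) (y s) / G (t s) (y s) :=
        div_nonneg (U.fermi.G1_nonneg hys'.le) (U.fermi.G_pos _ _).le
      have hcos : Real.cos (φ s) ^ 2 ≤ 1 := by
        have := Real.sin_sq_add_cos_sq (φ s)
        nlinarith [sq_nonneg (Real.sin (φ s))]
      have hp' : G1 (t s) (y s) / G (t s) (y s) * Real.cos (φ s) ^ 2 ≤ C * q s ^ 2 * y s := by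
        calc G1 (t s) (y s) / G (t s) (y s) * Real.cos (φ s) ^ 2
            ≤ G1 (t s) (y s) / G (t s) (y s) * 1 := mul_le_mul_of_nonneg_left hcos hr0
          _ ≤ C * q s ^ 2 * y s := by rw [mul_one]; exact hratio
      have h3 : 2 * l * (G1 (t s) (y s) / G (t s) (y s) * Real.cos (φ s) ^ 2) * E s ≤
          2 * l * (C * q s ^ 2 * y s) * E s := by
        apply mul_le_mul_of_nonneg_right _ (hEpos s).le
        exact mul_le_mul_of_nonneg_left hp' (by linarith)
      have h4 : 2 * l * (C * q s ^ 2 * y s) * E s +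
          q s * (E s * (-(4 * l ^ 2 * C) * (2 * (y s * Real.sin (φ s))))) =
          2 * l * C * q s * y s * E s * (2 * y 0 - q s) := by
        simp only [hq]
        ring
      have hqpos : 0 < q s := by linarith [U.ha]
      have h5 : 2 * l * C * q s * y s * E s * (2 * y 0 - q s) < 0 := by
        apply mul_neg_of_pos_of_neg
        · have := hEpos s
          positivity
        · linarith
      linarith
  have h1 := hmain T (right_mem_Icc.2 hT)
  have h2 := hE2 T hT le_rfl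
  have h3 := hq0 T hT
  have : q T * (1 / 2) ≤ q T * E T := mul_le_mul_of_nonneg_left h2 h3
  show q T ≤ 2 * M
  linarith

theorem Up.dichotomy (U : Up G G1 Kc t y φ) {l κ C ys M : ℝ} (hl : 0 < l)
    (hper : ∀ t y, Kc (t + l) y = Kc t y) (hκ0 : 0 ≤ κ) (hκ : ∀ t z, -Kc t z ≤ κ) (hC0 : 0 < C)
    (hC : ∀ t y z, Kc t z = 0 → -Kc t y ≤ C * (y - z) ^ 2) (hz : ∀ t, Kc t 0 = 0)
    (hflat : ∀ s, 0 ≤ s → Kc (t s) (y s) = 0) (hys : κ * ys ^ 2 ≤ 1 / 4)
    (hys2 : 4 * l ^ 2 * C * ys ^ 2 ≤ 1 / 2) (hy0 : y 0 ≤ ys) (hM1 : 2 * y 0 < M)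
    (hM2 : y 0 + 2 * l * Real.sin (φ 0) < M) (hM3 : M ≤ l / 2) :
    (∀ s, 0 ≤ s → Real.sin (φ s) = 0) ∨
      (∀ th, ∀ yh ∈ Icc 0 ys, -Kc th yh ≤ C * (2 * M) ^ 2) := by
  by_cases hall : ∀ s, 0 ≤ s → Real.sin (φ s) = 0
  · exact Or.inl hall
  right
  push Not at hall
  obtain ⟨s1, hs1, hne⟩ := hall
  have hp1 : 0 < Real.sin (φ s1) := lt_of_le_of_ne (U.p_nonneg hs1) (Ne.symm hne)
  -- the curve reaches height `ys`
  have hT : ∃ T, 0 ≤ T ∧ y T = ys := by
    set s3 := s1 + (|ys| + |y s1|) / Real.sin (φ s1) with hs3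
    have h0 : 0 ≤ (|ys| + |y s1|) / Real.sin (φ s1) := by positivity
    have h1 := U.le_adv hs1 (s2 := s3) (by linarith)
    have h2 : Real.sin (φ s1) * (s3 - s1) = |ys| + |y s1| := by
      rw [hs3]; field_simp; ring
    rw [h2] at h1
    have h3 : ys ≤ y s3 := by
      have := le_abs_self ys
      have := neg_abs_le (y s1)
      linarith
    have h4 : ys ∈ y '' Icc 0 s3 :=
      intermediate_value_Icc (by linarith) U.sol.cont_y.continuousOn ⟨hy0, h3⟩
    obtain ⟨T, hT, hT'⟩ := h4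
    exact ⟨T, hT.1, hT'⟩
  obtain ⟨T, hT0, hTy⟩ := hT
  have hsb := U.slope_bound hl hper hκ0 hκ hC0 hC hz hflat hys hys2 hM1 hM2 hM3 hT0 hTy.le
  have hpT : Real.sin (φ T) ≤ 1 / 2 := by
    have h4 := U.ha
    have h5 : 2 * l * Real.sin (φ T) ≤ l := by linarith
    by_contra hc
    push Not at hc
    have : 2 * l * (1 / 2) < 2 * l * Real.sin (φ T) :=
      mul_lt_mul_of_pos_left hc (by linarith)
    linarith
  intro th yh hyh
  refine (U.near_zero hl hper hκ0 hκ hC0.le hC hz hflat hys hT0 hpT hTy.le th yh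
    (by rwa [hTy])).trans ?_
  apply mul_le_mul_of_nonneg_left _ hC0.le
  apply pow_le_pow_left₀ _ hsb
  have := U.p_nonneg hT0
  have := U.ha
  positivity

/-- zero geodesic curvature at height `a` forces zero curvature below -/
theorem Fermi.flat_below (h : Fermi G G1 Kc) {t a : ℝ} (_ha : 0 ≤ a) (h1 : G1 t a = 0) :
    ∀ z ∈ Ioo 0 a, Kc t z = 0 := by
  have hz : ∀ z ∈ Icc 0 a, G t z * G1 t z = 0 := by
    intro z hz
    have h2 := h.GG1_nonneg (t := t) hz.1
    have h3 := h.mono_GG1 t hz.2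
    simp only [h1, mul_zero] at h3
    exact le_antisymm h3 h2
  intro z hz'
  have d1 := h.deriv_sq t z
  have d2 : HasDerivAt (fun y => G t y * G1 t y) 0 z := by
    apply (hasDerivAt_const z (0 : ℝ)).congr_of_eventuallyEq
    filter_upwards [Ioo_mem_nhds hz'.1 hz'.2] with w hw
    exact hz w ⟨hw.1.le, hw.2.le⟩
  have e := d1.unique d2
  have h2 : 0 ≤ -Kc t z * G t z ^ 2 := mul_nonneg (by linarith [h.Kneg t z]) (sq_nonneg _)
  have h3 : -Kc t z * G t z ^ 2 = 0 := by
    have := sq_nonneg (G1 t z)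
    linarith
  have h4 : G t z ^ 2 ≠ 0 := pow_ne_zero _ (h.G_pos t z).ne'
  rcases mul_eq_zero.1 h3 with h5 | h5
  · linarith
  · exact absurd h5 h4

theorem Up.parallel (U : Up G G1 Kc t y φ) {l κ ys : ℝ} (hl : 0 < l)
    (hper : ∀ t y, Kc (t + l) y = Kc t y) (hκ0 : 0 ≤ κ) (hκ : ∀ t z, -Kc t z ≤ κ)
    (hz : ∀ t, Kc t 0 = 0)
    (hflat : ∀ s, 0 ≤ s → Kc (t s) (y s) = 0) (hys : κ * ys ^ 2 ≤ 1 / 4) (hy0 : y 0 ≤ ys)
    (hp : ∀ s, 0 ≤ s → Real.sin (φ s) = 0) :
    ∀ th, ∀ z ∈ Icc 0 (y 0), Kc th z = 0 := by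
  have hyc : ∀ s, 0 ≤ s → y s = y 0 := by
    intro s hs
    have h1 := U.adv_le le_rfl hs
    have h2 := U.le_adv le_rfl hs
    rw [hp s hs] at h1
    rw [hp 0 le_rfl] at h2
    linarith
  have hG1 : ∀ s, 0 < s → G1 (t s) (y 0) = 0 := by
    intro s hs
    have d1 := U.sol.dp s
    have d2 : HasDerivAt (fun s => Real.sin (φ s)) 0 s := by
      apply (hasDerivAt_const s (0 : ℝ)).congr_of_eventuallyEq
      filter_upwards [Ioi_mem_nhds hs] with w hw
      exact hp w (le_of_lt hw)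
    have e := d1.unique d2
    rw [hyc s hs.le] at e
    have hc : Real.cos (φ s) ^ 2 = 1 := by
      have := Real.sin_sq_add_cos_sq (φ s)
      rw [hp s hs.le] at this
      linarith
    rw [hc, mul_one, div_eq_zero_iff] at e
    rcases e with e | e
    · exact e
    · exact absurd e (U.fermi.G_pos _ _).ne'
  intro th z hzz
  have hperk : ∀ (n : ℤ) (z : ℝ), Kc (th + n • l) z = Kc th z := by
    intro n z
    have hP : Function.Periodic (fun t => Kc t z) l := fun t => hper t z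
    exact (hP.zsmul n) th
  obtain ⟨n, hn, _⟩ := existsUnique_add_zsmul_mem_Ioc hl th (t (1 + 2 * l) - l)
  simp only [sub_add_cancel] at hn
  have hadv := U.t_adv hκ0 hκ hys (x := 1 + 2 * l) (by linarith)
    (by rw [hp _ (by linarith)]; norm_num) (by rw [hyc _ (by linarith)]; exact hy0)
    (s1 := 1) (s2 := 1 + 2 * l) (by norm_num) (by linarith) le_rfl
  have : th + n • l ∈ t '' Icc 1 (1 + 2 * l) :=
    intermediate_value_Icc (by linarith) U.sol.cont_t.continuousOn
      ⟨by linarith [hn.1], hn.2⟩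
  obtain ⟨σ, hσ, hσt⟩ := this
  have hσ0 : 0 < σ := by linarith [hσ.1]
  rw [← hperk n, ← hσt]
  rcases eq_or_lt_of_le hzz.1 with h0 | h0
  · rw [← h0]; exact hz _
  · rcases eq_or_lt_of_le hzz.2 with h1 | h1
    · rw [h1, ← hyc σ hσ0.le]
      exact hflat σ hσ0.le
    · exact U.fermi.flat_below U.ha (hG1 σ hσ0) z ⟨h0, h1⟩

theorem Fermi.refl_t (h : Fermi G G1 Kc) :
    Fermi (fun t => G (-t)) (fun t => G1 (-t)) (fun t => Kc (-t)) where
  G0 _ := h.G0 _
  G10 _ := h.G10 _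
  dG _ y := h.dG _ y
  dG1 _ y := h.dG1 _ y
  Kneg _ y := h.Kneg _ y

/-- reversal of time combined with the reflection `t ↦ -t` -/
theorem Sol.refl_t (S : Sol G G1 t y φ) :
    Sol (fun t => G (-t)) (fun t => G1 (-t)) (fun s => -t (-s)) (fun s => y (-s))
      (fun s => -φ (-s)) where
  dt s := by
    have := ((S.dt (-s)).scomp s (hasDerivAt_neg s)).neg
    refine HasDerivAt.congr_deriv (f := fun s => -t (-s)) this ?_
    simp
  dy s := by
    have := (S.dy (-s)).scomp s (hasDerivAt_neg s)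
    refine HasDerivAt.congr_deriv (f := fun s => y (-s)) this ?_
    simp
  dφ s := by
    have := ((S.dφ (-s)).scomp s (hasDerivAt_neg s)).neg
    refine HasDerivAt.congr_deriv (f := fun s => -φ (-s)) this ?_
    simp

/-- zero curvature up to height `B` gives `G = 1`, `G1 = 0` -/
theorem Fermi.strip_G (h : Fermi G G1 Kc) {t B : ℝ} (hK : ∀ z ∈ Icc 0 B, Kc t z = 0) :
    ∀ z ∈ Icc 0 B, G t z = 1 ∧ G1 t z = 0 := by
  have h1 : ∀ z ∈ Icc 0 B, G1 t z = 0 := by
    intro z hz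
    have hle := Convex.norm_image_sub_le_of_norm_hasDerivWithin_le (f := G1 t)
      (f' := fun w => -Kc t w * G t w) (C := 0) (s := Icc 0 z) (x := 0) (y := z)
      (fun w _ => (h.dG1 t w).hasDerivWithinAt)
      (fun w hw => by rw [hK w ⟨hw.1, hw.2.trans hz.2⟩]; simp) (convex_Icc _ _)
      (left_mem_Icc.2 hz.1) (right_mem_Icc.2 hz.1)
    rw [zero_mul, norm_le_zero_iff, h.G10, sub_zero] at hle
    exact hle
  intro z hz
  refine ⟨?_, h1 z hz⟩
  have hle := Convex.norm_image_sub_le_of_norm_hasDerivWithin_le (f := G t)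
    (f' := fun w => G1 t w) (C := 0) (s := Icc 0 z) (x := 0) (y := z)
    (fun w _ => (h.dG t w).hasDerivWithinAt)
    (fun w hw => by rw [h1 w ⟨hw.1, hw.2.trans hz.2⟩]; simp) (convex_Icc _ _)
    (left_mem_Icc.2 hz.1) (right_mem_Icc.2 hz.1)
  rw [zero_mul, norm_le_zero_iff, h.G0] at hle
  linarith

theorem Fermi.shift (h : Fermi G G1 Kc) {B : ℝ} (hB : 0 ≤ B)
    (hK : ∀ t, ∀ z ∈ Icc 0 B, Kc t z = 0) :
    Fermi (fun t y => G t (y + B)) (fun t y => G1 t (y + B)) (fun t y => Kc t (y + B)) where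
  G0 t := by simpa using (h.strip_G (hK t) B ⟨hB, le_rfl⟩).1
  G10 t := by simpa using (h.strip_G (hK t) B ⟨hB, le_rfl⟩).2
  dG t y := by
    have := (h.dG t (y + B)).comp_add_const y B
    exact this
  dG1 t y := by
    have := (h.dG1 t (y + B)).comp_add_const y B
    exact this
  Kneg t y := h.Kneg _ _

theorem Sol.shift (S : Sol G G1 t y φ) (B s2 : ℝ) :
    Sol (fun t y => G t (y + B)) (fun t y => G1 t (y + B)) (fun s => t (s + s2))
      (fun s => y (s + s2) - B) (fun s => φ (s + s2)) where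
  dt s := by
    have := (S.dt (s + s2)).comp_add_const s s2
    simpa using this
  dy s := by
    have := ((S.dy (s + s2)).comp_add_const s s2).sub_const B
    simpa using this
  dφ s := by
    have := (S.dφ (s + s2)).comp_add_const s s2
    simpa using this

/-- the basic dichotomy for a geodesic starting with nonnegative slope -/
theorem isolate_pos (h : Fermi G G1 Kc) {l κ C B ys M : ℝ} (hl : 0 < l)
    (hper : ∀ t y, Kc (t + l) y = Kc t y) (hκ0 : 0 ≤ κ) (hκ : ∀ t z, -Kc t z ≤ κ) (hC0 : 0 < C)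
    (hC : ∀ t y z, Kc t z = 0 → -Kc t y ≤ C * (y - z) ^ 2) (hB : 0 ≤ B)
    (hstrip : ∀ t, ∀ z ∈ Icc 0 B, Kc t z = 0) (hys0 : 0 < ys)
    (hys : κ * ys ^ 2 ≤ 1 / 4) (hys2 : 4 * l ^ 2 * C * ys ^ 2 ≤ 1 / 2)
    (S : Sol G G1 t y φ) (hflat : ∀ s, Kc (t s) (y s) = 0) (ha : 0 ≤ y 0)
    (hb : 0 ≤ Real.sin (φ 0)) (hcos : 0 < Real.cos (φ 0)) (hyB : 0 < B → y 0 < B)
    (hy0 : y 0 ≤ ys) (hM1 : 2 * y 0 < M)
    (hM2 : y 0 + 2 * l * Real.sin (φ 0) < M) (hM3 : M ≤ l / 2) :
    (Real.sin (φ 0) = 0 ∧ ∀ th, ∀ z ∈ Icc 0 (y 0), Kc th z = 0) ∨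
      (∀ th, ∀ z ∈ Icc B (B + ys), -Kc th z ≤ C * (2 * M) ^ 2) := by
  by_cases hab : 0 < y 0 ∨ 0 < Real.sin (φ 0)
  swap
  · push Not at hab
    left
    refine ⟨le_antisymm hab.2 hb, ?_⟩
    intro th z hz
    apply hstrip th z
    have : z = 0 := le_antisymm (hz.2.trans hab.1) hz.1
    rw [this]
    exact ⟨le_rfl, hB⟩
  have U : Up G G1 Kc t y φ := ⟨h, S, ha, hb, hcos, S.pos h ha hb hab⟩
  have hz0 : ∀ t, Kc t 0 = 0 := fun t => hstrip t 0 ⟨le_rfl, hB⟩
  rcases eq_or_lt_of_le hB with hB0 | hBpos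
  · rcases U.dichotomy hl hper hκ0 hκ hC0 hC hz0 (fun s _ => hflat s) hys hys2 hy0 hM1 hM2 hM3
      with h1 | h1
    · left
      exact ⟨h1 0 le_rfl, U.parallel hl hper hκ0 hκ hz0 (fun s _ => hflat s) hys hy0 h1⟩
    · right
      rw [← hB0]
      simpa using h1
  · have hy0B := hyB hBpos
    rcases eq_or_lt_of_le hb with hb0 | hbpos
    · left
      refine ⟨hb0.symm, fun th z hz => hstrip th z ⟨hz.1, hz.2.trans hy0B.le⟩⟩
    · right
      -- reach the height `B`
      have hs2 : ∃ s2, 0 ≤ s2 ∧ y s2 = B := by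
        set s3 := B / Real.sin (φ 0) with hs3
        have h0 : 0 ≤ s3 := by positivity
        have h1 := U.le_adv le_rfl h0
        have h2 : Real.sin (φ 0) * (s3 - 0) = B := by
          rw [hs3]; field_simp; ring
        rw [h2] at h1
        have h4 : B ∈ y '' Icc 0 s3 :=
          intermediate_value_Icc h0 U.sol.cont_y.continuousOn ⟨hy0B.le, by linarith⟩
        obtain ⟨T, hT, hT'⟩ := h4
        exact ⟨T, hT.1, hT'⟩
      obtain ⟨s2, hs20, hs2y⟩ := hs2
      have hφ : φ s2 = φ 0 := by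
        have hle := Convex.norm_image_sub_le_of_norm_hasDerivWithin_le (f := φ)
          (f' := fun w => G1 (t w) (y w) / G (t w) (y w) * Real.cos (φ w)) (C := 0)
          (s := Icc 0 s2) (x := 0) (y := s2)
          (fun w _ => (S.dφ w).hasDerivWithinAt)
          (fun w hw => by
            have : G1 (t w) (y w) = 0 := (h.strip_G (hstrip (t w)) (y w)
              ⟨U.nonneg hw.1, by rw [← hs2y]; exact U.mono_y hw.1 hw.2⟩).2
            rw [this]; simp) (convex_Icc _ _)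
          (left_mem_Icc.2 hs20) (right_mem_Icc.2 hs20)
        rw [zero_mul, norm_le_zero_iff] at hle
        linarith
      have S' := S.shift B s2
      have h' := h.shift hB hstrip
      have e0 : y (0 + s2) - B = 0 := by rw [zero_add, hs2y]; ring
      have e1 : φ (0 + s2) = φ 0 := by rw [zero_add, hφ]
      have U' : Up (fun t y => G t (y + B)) (fun t y => G1 t (y + B)) (fun t y => Kc t (y + B))
          (fun s => t (s + s2)) (fun s => y (s + s2) - B) (fun s => φ (s + s2)) := by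
        refine ⟨h', S', ?_, ?_, ?_, ?_⟩
        · rw [e0]
        · rw [e1]; exact hb
        · rw [e1]; exact hcos
        · exact S'.pos h' (by rw [e0]) (by rw [e1]; exact hb) (Or.inr (by rw [e1]; exact hbpos))
      have hd := U'.dichotomy hl (fun t y => hper t (y + B)) hκ0 (fun t z => hκ t (z + B)) hC0
        (fun t y z hz => by
          have := hC t (y + B) (z + B) hz
          rwa [add_sub_add_right_eq_sub] at this)
        (fun t => by simpa using hstrip t B ⟨hB, le_rfl⟩)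
        (fun s _ => by simpa using hflat (s + s2)) hys hys2 (M := M)
        (by rw [e0]; exact hys0.le) (by rw [e0]; linarith [ha])
        (by rw [e0, e1]; linarith) hM3
      rcases hd with h1 | h1
      · exfalso
        have := h1 0 le_rfl
        rw [e1] at this
        linarith
      · intro th z hz
        have := h1 th (z - B) ⟨by linarith [hz.1], by linarith [hz.2]⟩
        simpa using this

/-- the basic dichotomy -/
theorem isolate (h : Fermi G G1 Kc) {l κ C B ys M : ℝ} (hl : 0 < l)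
    (hper : ∀ t y, Kc (t + l) y = Kc t y) (hκ0 : 0 ≤ κ) (hκ : ∀ t z, -Kc t z ≤ κ) (hC0 : 0 < C)
    (hC : ∀ t y z, Kc t z = 0 → -Kc t y ≤ C * (y - z) ^ 2) (hB : 0 ≤ B)
    (hstrip : ∀ t, ∀ z ∈ Icc 0 B, Kc t z = 0) (hys0 : 0 < ys)
    (hys : κ * ys ^ 2 ≤ 1 / 4) (hys2 : 4 * l ^ 2 * C * ys ^ 2 ≤ 1 / 2)
    (S : Sol G G1 t y φ) (hflat : ∀ s, Kc (t s) (y s) = 0) (ha : 0 ≤ y 0)
    (hcos : 0 < Real.cos (φ 0)) (hyB : 0 < B → y 0 < B)
    (hy0 : y 0 ≤ ys) (hM1 : 2 * y 0 < M)
    (hM2 : y 0 + 2 * l * |Real.sin (φ 0)| < M) (hM3 : M ≤ l / 2) :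
    (Real.sin (φ 0) = 0 ∧ ∀ th, ∀ z ∈ Icc 0 (y 0), Kc th z = 0) ∨
      (∀ th, ∀ z ∈ Icc B (B + ys), -Kc th z ≤ C * (2 * M) ^ 2) := by
  rcases le_total 0 (Real.sin (φ 0)) with hs | hs
  · rw [abs_of_nonneg hs] at hM2
    exact isolate_pos h hl hper hκ0 hκ hC0 hC hB hstrip hys0 hys hys2 S hflat ha hs hcos hyB hy0
      hM1 hM2 hM3
  · rw [abs_of_nonpos hs] at hM2
    have hper' : ∀ t y, Kc (-(t + l)) y = Kc (-t) y := by
      intro t y
      have := hper (-(t + l)) y
      rw [← this]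
      congr 1
      ring
    have := isolate_pos h.refl_t hl hper' hκ0 (fun t z => hκ (-t) z) hC0
      (fun t y z hz => hC (-t) y z hz) hB (fun t => hstrip (-t)) hys0 hys hys2 S.refl_t
      (fun s => by simpa using hflat (-s)) (by simpa using ha) (by simpa using hs)
      (by simpa using hcos) (by simpa using hyB) (by simpa using hy0) (M := M)
      (by simpa using hM1) (by simpa using hM2) hM3
    simp only [neg_zero, Real.sin_neg, neg_eq_zero] at this
    rcases this with h1 | h1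
    · left
      refine ⟨h1.1, fun th z hz => ?_⟩
      have := h1.2 (-th) z hz
      simpa using this
    · right
      intro th z hz
      have := h1 (-th) z hz
      simpa using this

end NearFlat
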