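import Pool.Agent.H65.Flat.Geo
import Pool.Agent.H72.Flat.IsolOde

/-! Isolation of a periodic flat line (Step 6): the geometric part. -/

namespace H65.Flat

open MeasureTheory Set Filter
open scoped ENNReal Topology

variable (G : Geo)

theorem iso_rot_rot (a b : ℝ) (v : T) : rot a (rot b v) = rot (a + b) v := by
  simp only [rot, add_assoc]
  rw [add_comm b a]

theorem iso_rot_zero (v : T) : rot 0 v = v := by simp [rot]

theorem Geo.iso_kc_eq (u : T) (t y : ℝ) :
    G.Kc u t y = G.K (G.Φ y (rot (Real.pi / 2) (G.Φ t u))) := by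
  simp only [Geo.Kc, Psi, G.K_rot]

theorem Geo.iso_K_psi (u : T) (t y φ : ℝ) : G.K (Psi G.Φ u (t, y, φ)) = G.Kc u t y := by
  simp only [Geo.Kc, Psi, G.K_rot]

theorem Geo.iso_psi_zero (u : T) (t φ : ℝ) : Psi G.Φ u (t, 0, φ) = rot φ (G.Φ t u) := by
  simp only [Psi, G.flow_zero, iso_rot_rot]
  congr 1
  ring

theorem Geo.iso_kc_zero (u : T) (t : ℝ) : G.Kc u t 0 = G.K (G.Φ t u) := by
  rw [G.iso_kc_eq, G.flow_zero, G.K_rot]

theorem Geo.iso_fermi (u : T) : NearFlat.Fermi (G.Gc u) (G.Gc1 u) (G.Kc u) where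
  G0 t := G.J_zero _
  G10 t := G.J1_zero _
  dG t y := G.J_deriv _ y
  dG1 t y := by
    rw [G.iso_kc_eq]
    exact G.J1_deriv _ y
  Kneg t y := G.K_nonpos _

theorem Geo.iso_K_bound : ∃ κ : ℝ, 0 < κ ∧ ∀ v, -G.K v ≤ κ := by
  obtain ⟨C, hC⟩ := G.K_bdd 0
  refine ⟨|C| + 1, by positivity, fun v => ?_⟩
  have := hC v 0
  rw [iteratedDeriv_zero, G.flow_zero] at this
  have h2 := neg_abs_le (G.K v)
  have h3 := le_abs_self C
  linarith

/-- quadratic vanishing at zeros of the curvature along geodesics -/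
theorem Geo.iso_K_quad : ∃ C : ℝ, 0 < C ∧ ∀ v y z, G.K (G.Φ z v) = 0 →
    -G.K (G.Φ y v) ≤ C * (y - z) ^ 2 := by
  obtain ⟨C, hC⟩ := G.K_bdd 2
  refine ⟨|C| + 1, by positivity, fun v y z hz => ?_⟩
  set f : ℝ → ℝ := fun y => G.K (G.Φ y v) with hf
  have hsm : ContDiff ℝ (⊤ : ℕ∞) f := G.K_smooth v
  have hd1 : ∀ x, HasDerivAt f (deriv f x) x := fun x =>
    ((hsm.differentiable (by simp)) x).hasDerivAt
  have hsm1 : ContDiff ℝ (⊤ : ℕ∞) (deriv f) := by
    have := (contDiff_infty_iff_deriv (𝕜 := ℝ) (f := f)).1 hsm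
    exact this.2
  have hd2 : ∀ x, HasDerivAt (deriv f) (deriv (deriv f) x) x := fun x =>
    ((hsm1.differentiable (by simp)) x).hasDerivAt
  have hb : ∀ x, |deriv (deriv f) x| ≤ |C| + 1 := by
    intro x
    have := hC v x
    rw [iteratedDeriv_succ, iteratedDeriv_one] at this
    have h3 := le_abs_self C
    linarith
  have hmax : IsLocalMax f z := by
    refine Filter.Eventually.of_forall fun w => ?_
    have : f z = 0 := hz
    rw [this]
    exact G.K_nonpos _
  have hfz : deriv f z = 0 := hmax.deriv_eq_zero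
  have h1 : ∀ x, |deriv f x| ≤ (|C| + 1) * |x - z| := by
    intro x
    have := Convex.norm_image_sub_le_of_norm_hasDerivWithin_le (f := deriv f)
      (f' := deriv (deriv f)) (C := |C| + 1) (s := univ) (x := z) (y := x)
      (fun w _ => (hd2 w).hasDerivWithinAt) (fun w _ => hb w) convex_univ (mem_univ _) (mem_univ _)
    rw [hfz, sub_zero] at this
    simpa [Real.norm_eq_abs] using this
  have h2 : |f y - f z| ≤ (|C| + 1) * |y - z| * |y - z| := by
    have := Convex.norm_image_sub_le_of_norm_hasDerivWithin_le (f := f)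
      (f' := deriv f) (C := (|C| + 1) * |y - z|) (s := uIcc z y) (x := z) (y := y)
      (fun w _ => (hd1 w).hasDerivWithinAt) (fun w hw => ?_) (convex_uIcc _ _)
      left_mem_uIcc right_mem_uIcc
    · simpa [Real.norm_eq_abs] using this
    · rw [Real.norm_eq_abs]
      refine (h1 w).trans (mul_le_mul_of_nonneg_left ?_ (by positivity))
      exact abs_sub_left_of_mem_uIcc hw
  have h3 : f z = 0 := hz
  rw [h3, sub_zero] at h2
  have h4 := neg_abs_le (f y)
  have h5 : (|C| + 1) * |y - z| * |y - z| = (|C| + 1) * (y - z) ^ 2 := by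
    rw [mul_assoc, ← sq, sq_abs]
  have h6 : f y = G.K (G.Φ y v) := rfl
  rw [← h6]
  linarith

theorem Geo.iso_kc_quad {C : ℝ} (hC : ∀ v y z, G.K (G.Φ z v) = 0 →
    -G.K (G.Φ y v) ≤ C * (y - z) ^ 2) (u : T) (t y z : ℝ) (h : G.Kc u t z = 0) :
    -G.Kc u t y ≤ C * (y - z) ^ 2 := by
  rw [G.iso_kc_eq] at h ⊢
  exact hC _ _ _ h

/-- a periodic line has a periodic chart -/
theorem Geo.iso_kc_per {u : T} (hp : G.Per u) : ∃ l : ℝ, 0 < l ∧
    ∀ t y, G.Kc u (t + l) y = G.Kc u t y := by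
  obtain ⟨τ, hτ, s, hs, hu⟩ := hp
  have h1 : ∀ t y, G.Kc u (t + s) y = G.Kc u t y := by
    intro t y
    rw [G.iso_kc_eq, G.iso_kc_eq, G.flow_add, ← hu, G.Λ_flow τ hτ, G.Λ_rot τ hτ, G.Λ_flow τ hτ,
      G.Λ_K τ hτ]
  rcases lt_or_gt_of_ne hs with h | h
  · refine ⟨-s, by linarith, fun t y => ?_⟩
    have := h1 (t + -s) y
    rw [← this]
    congr 1
    ring
  · exact ⟨s, h, h1⟩

/-- one-sided flat strip -/
def Geo.StripP (u : T) (b : ℝ) : Prop := ∀ t, ∀ y ∈ Icc 0 b, G.Kc u t y = 0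

theorem Geo.iso_kc_cont (u : T) : Continuous fun p : ℝ × ℝ => G.Kc u p.1 p.2 := by
  have h1 : Continuous fun p : ℝ × ℝ => G.Φ p.1 u :=
    G.flow_cont.comp (continuous_fst.prodMk continuous_const)
  have h2 : Continuous fun v : T => rot (Real.pi / 2) v := by
    unfold rot; fun_prop
  have h3 : Continuous fun p : ℝ × ℝ => G.Φ p.2 (rot (Real.pi / 2) (G.Φ p.1 u)) :=
    G.flow_cont.comp (continuous_snd.prodMk (h2.comp h1))
  have h4 := G.K_cont.comp h3
  have e : (fun p : ℝ × ℝ => G.Kc u p.1 p.2) =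
      G.K ∘ fun p : ℝ × ℝ => G.Φ p.2 (rot (Real.pi / 2) (G.Φ p.1 u)) := by
    funext p
    simp only [Function.comp, G.iso_kc_eq]
  rw [e]
  exact h4

theorem Geo.iso_psi_cont : Continuous fun q : T × T => Psi G.Φ q.1 q.2 := by
  have h2 : Continuous fun v : T => rot (Real.pi / 2) v := by
    unfold rot; fun_prop
  have h1 : Continuous fun q : T × T => G.Φ q.2.1 q.1 :=
    G.flow_cont.comp ((continuous_snd.fst).prodMk continuous_fst)
  have h3 : Continuous fun q : T × T => G.Φ q.2.2.1 (rot (Real.pi / 2) (G.Φ q.2.1 q.1)) :=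
    G.flow_cont.comp ((continuous_snd.snd.fst).prodMk (h2.comp h1))
  have h4 : Continuous fun q : ℝ × T => rot q.1 q.2 := by
    unfold rot; fun_prop
  have h5 : Continuous fun q : T × T => q.2.2.2 - Real.pi / 2 := by fun_prop
  exact h4.comp (h5.prodMk h3)

/-- geodesics parallel to `u` inside a strip -/
theorem Geo.iso_strip_flow {u : T} {b : ℝ} (hs : G.StripP u b) {y : ℝ} (hy : y ∈ Icc 0 b) (t s : ℝ) :
    G.Φ s (Psi G.Φ u (t, y, 0)) = Psi G.Φ u (t + s, y, 0) := by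
  have hG : ∀ t, G.Gc u t y = 1 ∧ G.Gc1 u t y = 0 := fun t =>
    (G.iso_fermi u).strip_G (fun z hz => hs t z hz) y hy
  have h : ChartSol (fun t y => G.J (rot (Real.pi / 2) (G.Φ t u)) y)
      (fun t y => G.J1 (rot (Real.pi / 2) (G.Φ t u)) y) (fun s => t + s) (fun _ => y)
      (fun _ => 0) := by
    intro s
    have h1 : G.J (rot (Real.pi / 2) (G.Φ (t + s) u)) y = 1 := (hG (t + s)).1
    have h2 : G.J1 (rot (Real.pi / 2) (G.Φ (t + s) u)) y = 0 := (hG (t + s)).2
    refine ⟨?_, ?_, ?_⟩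
    · simp only [h1, Real.cos_zero, div_one]
      exact (hasDerivAt_id s).const_add t
    · simpa using hasDerivAt_const s y
    · simp only [h2, zero_div, zero_mul]
      exact hasDerivAt_const s (0 : ℝ)
  have := G.chart_unique u _ _ _ h s
  simpa using this

/-- charts of parallel geodesics inside a strip -/
theorem Geo.iso_strip_psi {u : T} {b : ℝ} (hs : G.StripP u b) {y : ℝ} (hy : y ∈ Icc 0 b)
    (t0 t η φ : ℝ) : Psi G.Φ (Psi G.Φ u (t0, y, 0)) (t, η, φ) = Psi G.Φ u (t0 + t, η + y, φ) := by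
  have h1 : Psi G.Φ (Psi G.Φ u (t0, y, 0)) (t, η, φ) =
      rot (φ - Real.pi / 2) (G.Φ η (rot (Real.pi / 2) (G.Φ t (Psi G.Φ u (t0, y, 0))))) := rfl
  rw [h1, G.iso_strip_flow hs hy]
  simp only [Psi, iso_rot_rot, G.flow_add]
  congr 2
  rw [show Real.pi / 2 + (0 - Real.pi / 2) = 0 by ring, iso_rot_zero]

/-- the flat half plane is impossible -/
theorem Geo.iso_strip_bdd (u : T) : BddAbove {b : ℝ | 0 ≤ b ∧ G.StripP u b} := by
  by_contra hcon
  have hall : ∀ n : ℕ, G.StripP u n := by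
    intro n
    rw [not_bddAbove_iff] at hcon
    obtain ⟨b, ⟨_, hb⟩, hn⟩ := hcon n
    intro t y hy
    exact hb t y ⟨hy.1, hy.2.trans hn.le⟩
  obtain ⟨C, hC, hcov⟩ := G.Λ_cocompact
  choose τ hτ hτC using fun n : ℕ => hcov (Psi G.Φ u (0, (n : ℝ), 0))
  obtain ⟨w, _, ψ, hψ, hlim⟩ := hC.tendsto_subseq hτC
  -- the curvature vanishes in the chart of `w`
  have hflat : ∀ t y, G.Kc w t y = 0 := by
    intro t y
    have h1 : Tendsto (fun n => G.Kc (τ (ψ n) (Psi G.Φ u (0, ((ψ n : ℕ) : ℝ), 0))) t y) atTop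
        (𝓝 (G.Kc w t y)) := by
      have h2 : Continuous fun v : T => G.Kc v t y := by
        have h3 : Continuous fun v : T => G.K (Psi G.Φ v (t, y, 0)) :=
          G.K_cont.comp (G.iso_psi_cont.comp (continuous_id.prodMk continuous_const))
        exact h3
      exact (h2.tendsto w).comp hlim
    have h2 : ∀ᶠ n in atTop, G.Kc (τ (ψ n) (Psi G.Φ u (0, ((ψ n : ℕ) : ℝ), 0))) t y = 0 := by
      obtain ⟨N, hN⟩ := exists_nat_ge |y|
      filter_upwards [hψ.tendsto_atTop.eventually_ge_atTop N] with n hn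
      have hn' : |y| ≤ (ψ n : ℝ) := hN.trans (by exact_mod_cast hn)
      have h3 : G.Kc (τ (ψ n) (Psi G.Φ u (0, ((ψ n : ℕ) : ℝ), 0))) t y =
          G.Kc (Psi G.Φ u (0, ((ψ n : ℕ) : ℝ), 0)) t y := by
        rw [G.iso_kc_eq, G.iso_kc_eq, G.Λ_flow _ (hτ _), G.Λ_rot _ (hτ _), G.Λ_flow _ (hτ _),
          G.Λ_K _ (hτ _)]
      rw [h3]
      have h4 := G.iso_strip_psi (hall (ψ n)) (y := (ψ n : ℝ)) ⟨by positivity, le_rfl⟩ 0 t y 0
      have h5 : G.Kc (Psi G.Φ u (0, ((ψ n : ℕ) : ℝ), 0)) t y = G.Kc u (0 + t) (y + ψ n) := by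
        show G.K _ = G.K _
        rw [h4]
      rw [h5]
      apply hall (2 * ψ n)
      have := abs_le.1 hn'
      constructor
      · linarith
      · push_cast; linarith
    have h3 : Tendsto (fun n => G.Kc (τ (ψ n) (Psi G.Φ u (0, ((ψ n : ℕ) : ℝ), 0))) t y) atTop
        (𝓝 0) := tendsto_const_nhds.congr' (h2.mono fun n hn => hn.symm)
    exact tendsto_nhds_unique h1 h3
  obtain ⟨v, hv⟩ := G.K_ne
  apply hv
  have h1 := G.inv_right w v
  rw [← h1]
  have : G.inv w v = ((G.inv w v).1, (G.inv w v).2.1, (G.inv w v).2.2) := rfl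
  rw [this, G.iso_K_psi]
  exact hflat _ _

/-- Step 6 on the side `y ≥ 0` -/
theorem Geo.iso_isolated_pos {u : T} (hu : G.FlatV u) (hp : G.Per u) :
    ∀ᶠ v in 𝓝 u, G.FlatV v → 0 ≤ (G.inv u v).2.1 →
      (G.inv u v).2.2 = 0 ∧ G.StripP u (G.inv u v).2.1 := by
  obtain ⟨κ, hκ0, hκ⟩ := G.iso_K_bound
  obtain ⟨C, hC0, hC⟩ := G.iso_K_quad
  obtain ⟨l, hl, hper⟩ := G.iso_kc_per hp
  have hbdd := G.iso_strip_bdd u
  set 𝓑 := {b : ℝ | 0 ≤ b ∧ G.StripP u b} with h𝓑
  have h0 : (0 : ℝ) ∈ 𝓑 := by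
    refine ⟨le_rfl, fun t y hy => ?_⟩
    have : y = 0 := le_antisymm hy.2 hy.1
    rw [this, G.iso_kc_zero]
    exact hu t
  set B := sSup 𝓑 with hB
  have hB0 : 0 ≤ B := le_csSup hbdd h0
  have hstripB : G.StripP u B := by
    intro t y hy
    rcases eq_or_lt_of_le hy.2 with h1 | h1
    · -- closedness
      rcases eq_or_lt_of_le hy.1 with h2 | h2
      · rw [← h2, G.iso_kc_zero]; exact hu t
      · have hcont : Continuous fun z => G.Kc u t z :=
          (G.iso_kc_cont u).comp (continuous_const.prodMk continuous_id)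
        have hz : ∀ z ∈ Ioo 0 y, G.Kc u t z = 0 := by
          intro z hz
          obtain ⟨b, hb, hzb⟩ := exists_lt_of_lt_csSup ⟨0, h0⟩
            (show z < sSup 𝓑 by rw [← hB, ← h1]; exact hz.2)
          exact hb.2 t z ⟨hz.1.le, hzb.le⟩
        have hcl : IsClosed {z | G.Kc u t z = 0} := isClosed_eq hcont continuous_const
        have hsub : Ioo 0 y ⊆ {z | G.Kc u t z = 0} := fun z hz' => hz z hz'
        have hsub2 := hcl.closure_subset_iff.2 hsub
        rw [closure_Ioo h2.ne] at hsub2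
        exact hsub2 ⟨h2.le, le_rfl⟩
    · obtain ⟨b, hb, hyb⟩ := exists_lt_of_lt_csSup ⟨0, h0⟩ h1
      exact hb.2 t y ⟨hy.1, hyb.le⟩
  -- height `ys`
  obtain ⟨ys, hys0, hys, hys2⟩ : ∃ ys : ℝ, 0 < ys ∧ κ * ys ^ 2 ≤ 1 / 4 ∧
      4 * l ^ 2 * C * ys ^ 2 ≤ 1 / 2 := by
    have h1 : Tendsto (fun y : ℝ => κ * y ^ 2) (𝓝[>] 0) (𝓝 0) := by
      have : Continuous fun y : ℝ => κ * y ^ 2 := by fun_prop
      have := this.tendsto 0
      simp only [ne_eq, OfNat.ofNat_ne_zero, not_false_eq_true, zero_pow, mul_zero] at this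
      exact this.mono_left nhdsWithin_le_nhds
    have h2 : Tendsto (fun y : ℝ => 4 * l ^ 2 * C * y ^ 2) (𝓝[>] 0) (𝓝 0) := by
      have : Continuous fun y : ℝ => 4 * l ^ 2 * C * y ^ 2 := by fun_prop
      have := this.tendsto 0
      simp only [ne_eq, OfNat.ofNat_ne_zero, not_false_eq_true, zero_pow, mul_zero] at this
      exact this.mono_left nhdsWithin_le_nhds
    have h3 := (h1.eventually (gt_mem_nhds (show (0 : ℝ) < 1 / 4 by norm_num))).and
      (h2.eventually (gt_mem_nhds (show (0 : ℝ) < 1 / 2 by norm_num)))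
    obtain ⟨y, ⟨hy1, hy2⟩, hy3⟩ := (h3.and self_mem_nhdsWithin).exists
    exact ⟨y, hy3, hy1.le, hy2.le⟩
  -- the strip is maximal
  obtain ⟨th, yh, hyh, hk⟩ : ∃ th yh, yh ∈ Icc B (B + ys) ∧ G.Kc u th yh ≠ 0 := by
    by_contra hcon
    push Not at hcon
    have : B + ys ∈ 𝓑 := by
      refine ⟨by linarith, fun t y hy => ?_⟩
      rcases le_total y B with h1 | h1
      · exact hstripB t y ⟨hy.1, h1⟩
      · exact hcon t y ⟨h1, hy.2⟩
    have := le_csSup hbdd this
    linarith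
  have hkpos : 0 < -G.Kc u th yh := by
    have h1 : G.Kc u th yh ≤ 0 := G.K_nonpos _
    have := lt_of_le_of_ne h1 hk
    linarith
  -- a small bound `M`
  obtain ⟨M, hM0, hM3, hM4⟩ : ∃ M : ℝ, 0 < M ∧ M ≤ l / 2 ∧ C * (2 * M) ^ 2 < -G.Kc u th yh := by
    have h1 : Tendsto (fun y : ℝ => C * (2 * y) ^ 2) (𝓝[>] 0) (𝓝 0) := by
      have : Continuous fun y : ℝ => C * (2 * y) ^ 2 := by fun_prop
      have := this.tendsto 0
      simp only [ne_eq, OfNat.ofNat_ne_zero, not_false_eq_true, zero_pow, mul_zero] at this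
      exact this.mono_left nhdsWithin_le_nhds
    have h2 : ∀ᶠ y : ℝ in 𝓝[>] 0, y < l / 2 :=
      nhdsWithin_le_nhds (gt_mem_nhds (by linarith))
    obtain ⟨y, ⟨hy1, hy2⟩, hy3⟩ := (((h1.eventually (gt_mem_nhds hkpos)).and h2).and
      self_mem_nhdsWithin).exists
    exact ⟨y, hy3, hy2.le, hy1⟩
  -- smallness near `u`
  have hinv0 : G.inv u u = (0, 0, 0) := by
    have : Psi G.Φ u (0, 0, 0) = u := by
      rw [G.iso_psi_zero, iso_rot_zero, G.flow_zero]
    have h2 := G.inv_left u (0, 0, 0)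
    rwa [this] at h2
  have hic : Continuous fun v => G.inv u v :=
    G.inv_cont.comp (continuous_const.prodMk continuous_id)
  have hcy : Tendsto (fun v => (G.inv u v).2.1) (𝓝 u) (𝓝 0) := by
    have : Continuous fun v => (G.inv u v).2.1 := hic.snd.fst
    have := this.tendsto u
    rwa [hinv0] at this
  have hcφ : Tendsto (fun v => (G.inv u v).2.2) (𝓝 u) (𝓝 0) := by
    have : Continuous fun v => (G.inv u v).2.2 := hic.snd.snd
    have := this.tendsto u
    rwa [hinv0] at this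
  have hcM : Tendsto (fun v => (G.inv u v).2.1 + 2 * l * |Real.sin (G.inv u v).2.2|) (𝓝 u)
      (𝓝 0) := by
    have h1 : Tendsto (fun v => |Real.sin (G.inv u v).2.2|) (𝓝 u) (𝓝 0) := by
      have := ((Real.continuous_sin.abs).tendsto 0).comp hcφ
      simp only [Real.sin_zero, abs_zero] at this
      exact this
    have := hcy.add (h1.const_mul (2 * l))
    simpa using this
  have hcB : ∀ᶠ v in 𝓝 u, 0 < B → (G.inv u v).2.1 < B := by
    rcases eq_or_lt_of_le hB0 with h1 | h1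
    · exact Eventually.of_forall fun v h2 => by linarith
    · filter_upwards [hcy.eventually (gt_mem_nhds h1)] with v hv _ using hv
  filter_upwards [hcM.eventually (gt_mem_nhds hM0), hcB,
    hcy.eventually (gt_mem_nhds (show (0 : ℝ) < M / 2 by linarith)),
    hcy.eventually (gt_mem_nhds hys0),
    hcφ.eventually (gt_mem_nhds (show (0 : ℝ) < 1 by norm_num)),
    hcφ.eventually (lt_mem_nhds (show (-1 : ℝ) < 0 by norm_num))] with v hv1 hv2 hv3 hv4 hv5 hv6
    hflat hy0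
  obtain ⟨t, y, φ, ht0, hyy0, hφ0, hsol, hflow⟩ := G.chart_sol u (G.inv u v)
  have S : NearFlat.Sol (G.Gc u) (G.Gc1 u) t y φ :=
    ⟨fun s => (hsol s).1, fun s => (hsol s).2.1, fun s => (hsol s).2.2⟩
  have hzero : ∀ s, G.Kc u (t s) (y s) = 0 := by
    intro s
    have h1 := hflow s
    rw [G.inv_right] at h1
    have h2 := hflat s
    rwa [h1, G.iso_K_psi] at h2
  have hcos : 0 < Real.cos (φ 0) := by
    rw [hφ0]
    apply Real.cos_pos_of_mem_Ioo
    have := Real.pi_gt_three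
    constructor <;> linarith
  have hd := NearFlat.isolate (G.iso_fermi u) hl hper hκ0.le (fun t z => hκ _) hC0
    (G.iso_kc_quad hC u) hB0 hstripB hys0 hys hys2 S hzero (by rw [hyy0]; exact hy0) hcos
    (by rw [hyy0]; exact hv2) (by rw [hyy0]; exact hv4.le) (M := M) (by rw [hyy0]; linarith)
    (by rw [hyy0, hφ0]; exact hv1) hM3
  rcases hd with h1 | h1
  · rw [hφ0, hyy0] at h1
    refine ⟨?_, h1.2⟩
    have h2 := h1.1
    have hpi := Real.pi_gt_three
    exact (Real.sin_eq_zero_iff_of_lt_of_lt (by linarith) (by linarith)).1 h2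
  · exfalso
    have := h1 th yh hyh
    linarith

/-- the chart of the reversed geodesic -/
theorem Geo.iso_psi_rev (u : T) (t y φ : ℝ) :
    Psi G.Φ (rot Real.pi u) (t, y, φ) = Psi G.Φ u (-t, -y, φ + Real.pi) := by
  simp only [Psi]
  rw [G.flow_rev t u, iso_rot_rot]
  have h1 : rot (Real.pi / 2 + Real.pi) (G.Φ (-t) u) =
      rot Real.pi (rot (Real.pi / 2) (G.Φ (-t) u)) := by
    rw [iso_rot_rot]; congr 1; ring
  rw [h1, G.flow_rev, iso_rot_rot]
  congr 1
  ring

theorem Geo.iso_kc_rev (u : T) (t y : ℝ) : G.Kc (rot Real.pi u) t y = G.Kc u (-t) (-y) := by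
  show G.K _ = _
  rw [G.iso_psi_rev, G.iso_K_psi]

/-- Step 6 -/
theorem Geo.isolated {u : T} (hu : G.FlatV u) (hp : G.Per u) :
    ∀ᶠ v in 𝓝 u, G.FlatV v → ∃ t y, v = Psi G.Φ u (t, y, 0) ∧ G.Strip u y := by
  have hpos := G.iso_isolated_pos hu hp
  have hu' : G.FlatV (rot Real.pi u) := by
    intro t
    rw [G.flow_rev, G.K_rot]
    exact hu _
  have hp' : G.Per (rot Real.pi u) := by
    obtain ⟨τ, hτ, s, hs, h⟩ := hp
    refine ⟨τ, hτ, -s, by simpa using hs, ?_⟩
    rw [← G.Λ_rot τ hτ, h, G.flow_rev, neg_neg]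
  have hneg := G.iso_isolated_pos hu' hp'
  have hrc : Continuous fun v : T => rot Real.pi v := by unfold rot; fun_prop
  have hneg' := (hrc.tendsto u).eventually hneg
  filter_upwards [hpos, hneg'] with v h1 h2 hv
  rcases le_total 0 (G.inv u v).2.1 with h3 | h3
  · obtain ⟨h4, h5⟩ := h1 hv h3
    refine ⟨(G.inv u v).1, (G.inv u v).2.1, ?_, ?_⟩
    · rw [← h4]
      exact (G.inv_right u v).symm
    · intro t y hy
      rw [uIcc_of_le h3] at hy
      exact h5 t y hy
  · have hv' : G.FlatV (rot Real.pi v) := by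
      intro t
      rw [G.flow_rev, G.K_rot]
      exact hv _
    have hinv : G.inv (rot Real.pi u) (rot Real.pi v) =
        (-(G.inv u v).1, -(G.inv u v).2.1, (G.inv u v).2.2) := by
      have h5 : rot Real.pi v = Psi G.Φ (rot Real.pi u)
          (-(G.inv u v).1, -(G.inv u v).2.1, (G.inv u v).2.2) := by
        rw [G.iso_psi_rev, neg_neg, neg_neg]
        have h6 : v = Psi G.Φ u ((G.inv u v).1, (G.inv u v).2.1, (G.inv u v).2.2) :=
          (G.inv_right u v).symm
        conv_lhs => rw [h6]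
        simp only [Psi, iso_rot_rot]
        congr 1
        ring
      rw [h5, G.inv_left]
    rw [hinv] at h2
    obtain ⟨h4, h5⟩ := h2 hv' (by simpa using h3)
    simp only at h4 h5
    refine ⟨(G.inv u v).1, (G.inv u v).2.1, ?_, ?_⟩
    · rw [← h4]
      exact (G.inv_right u v).symm
    · intro t y hy
      rw [uIcc_of_ge h3] at hy
      have := h5 (-t) (-y) ⟨by linarith [hy.2], by linarith [hy.1]⟩
      rwa [G.iso_kc_rev, neg_neg, neg_neg] at this

end H65.Flat
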