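import Pool.Agent.H72.Flat.NearFlat

/-! Tubes around geodesic segments; the two geometric estimates `RC` and `GC`. -/

namespace NearFlat

open Set

/-- `Psi u (t, y, φ)` -/
noncomputable def psi {T : Type*} (Φ rot : ℝ → T → T) (u : T) (t y φ : ℝ) : T :=
  rot (φ - Real.pi / 2) (Φ y (rot (Real.pi / 2) (Φ t u)))

/-- geodesic flow, rotations and Fermi charts -/
structure PreGeo {T : Type*} (Φ rot : ℝ → T → T) (K : T → ℝ) (G G1 : T → ℝ → ℝ → ℝ) : Prop where
  rot_zero : ∀ v, rot 0 v = v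
  rot_rot : ∀ a b v, rot a (rot b v) = rot (a + b) v
  flow_zero : ∀ v, Φ 0 v = v
  K_rot : ∀ a v, K (rot a v) = K v
  fermi : ∀ u, Fermi (G u) (G1 u) (fun t y => K (psi Φ rot u t y 0))
  chart_sol : ∀ u t0 y0 φ0, ∃ t y φ : ℝ → ℝ, Sol (G u) (G1 u) t y φ ∧ t 0 = t0 ∧ y 0 = y0 ∧
    φ 0 = φ0 ∧ ∀ s, Φ s (psi Φ rot u t0 y0 φ0) = psi Φ rot u (t s) (y s) (φ s)

/-- sideways shift -/
noncomputable def shift {T : Type*} (Φ rot : ℝ → T → T) (y : ℝ) (v : T) : T :=
  rot (-(Real.pi / 2)) (Φ y (rot (Real.pi / 2) v))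

/-- the tube of radius `r` around the segment of half-length `n` is almost flat -/
def Tube {T : Type*} (Φ rot : ℝ → T → T) (K : T → ℝ) (u : T) (n r : ℝ) : Prop :=
  ∀ t y, |t| ≤ n → |y| < r → -K (psi Φ rot u t y 0) < (n ^ 3)⁻¹

variable {T : Type*} {Φ rot : ℝ → T → T} {K : T → ℝ} {G G1 : T → ℝ → ℝ → ℝ}

theorem PreGeo.K_psi (h : PreGeo Φ rot K G G1) (u : T) (t y φ φ' : ℝ) :
    K (psi Φ rot u t y φ) = K (psi Φ rot u t y φ') := by
  unfold psi; rw [h.K_rot, h.K_rot]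

theorem PreGeo.rot_psi (h : PreGeo Φ rot K G G1) (u : T) (t y φ a : ℝ) :
    rot a (psi Φ rot u t y φ) = psi Φ rot u t y (φ + a) := by
  unfold psi; rw [h.rot_rot]; congr 1; ring

theorem PreGeo.psi_zero (h : PreGeo Φ rot K G G1) (u : T) (φ : ℝ) :
    psi Φ rot u 0 0 φ = rot φ u := by
  unfold psi; rw [h.flow_zero, h.flow_zero, h.rot_rot]; congr 1; ring

theorem PreGeo.psi_time (h : PreGeo Φ rot K G G1) (u : T) (t φ : ℝ) :
    psi Φ rot u t 0 φ = rot φ (Φ t u) := by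
  unfold psi; rw [h.flow_zero, h.rot_rot]; congr 1; ring

theorem shift_flow (u : T) (t y : ℝ) :
    shift Φ rot y (Φ t u) = psi Φ rot u t y 0 := by
  unfold shift psi
  rw [zero_sub]

/-- curvature at a point of the tube coordinates of `v`, as the value after three moves -/
theorem PreGeo.K_tube (h : PreGeo Φ rot K G G1) (v : T) (τ η : ℝ) :
    K (psi Φ rot v τ η 0) = K (Φ η (rot (Real.pi / 2) (Φ τ v))) := by
  unfold psi; rw [h.K_rot]

theorem Tube.mono_r {u : T} {n r r' : ℝ} (h : Tube Φ rot K u n r) (hr : r' ≤ r) :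
    Tube Φ rot K u n r' := fun t y ht hy => h t y ht (lt_of_lt_of_le hy hr)

theorem Tube.mono_n {u : T} {n n' r : ℝ} (h : Tube Φ rot K u n r) (hn0 : 0 < n') (hn : n' ≤ n) :
    Tube Φ rot K u n' r := by
  intro t y ht hy
  refine lt_of_lt_of_le (h t y (ht.trans hn) hy) ?_
  have : n' ^ 3 ≤ n ^ 3 := pow_le_pow_left₀ hn0.le hn 3
  exact inv_anti₀ (by positivity) this

/-- a tube gives the hypothesis of the tracking lemma -/
theorem Tube.bound (_h : PreGeo Φ rot K G G1) {u : T} {n r : ℝ} (hT : Tube Φ rot K u n r) :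
    ∀ t z, |t| ≤ n → |z| < r → -(fun t y => K (psi Φ rot u t y 0)) t z ≤ (n ^ 3)⁻¹ :=
  fun t z ht hz => (hT t z ht hz).le

/-- **(RC)** rotation of a vector with a wide tube by a small angle -/
theorem PreGeo.RC (h : PreGeo Φ rot K G G1) {u : T} {m ω : ℝ} (hm : 100 ≤ m) (hω0 : 0 < ω)
    (hω : ω ≤ m) (hT : Tube Φ rot K u (2 * m) ω) :
    Tube Φ rot K (rot (8 / 10 * ω / (100 * m)) u) m (98 / 100 * ω) := by
  intro τ η hτ hη
  set θ : ℝ := 8 / 10 * ω / (100 * m) with hθ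
  have hm0 : 0 < m := by linarith
  have hθ0 : 0 < θ := by positivity
  have hθm : m * θ = 8 / 1000 * ω := by rw [hθ]; field_simp; norm_num
  obtain ⟨t, y, φ, hS, ht0, hy0, hφ0, hfl⟩ := h.chart_sol u 0 0 θ
  have hκ0 : 0 ≤ ((2 * m) ^ 3)⁻¹ := by positivity
  have hκ : ((2 * m) ^ 3)⁻¹ * ω * m ^ 2 / 2 ≤ ω / 1600 := by
    have e : ((2 * m) ^ 3)⁻¹ * ω * m ^ 2 / 2 = ω / (16 * m) := by field_simp; ring
    rw [e]
    apply div_le_div_of_nonneg_left hω0.le (by norm_num) (by linarith)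
  have hsin : |Real.sin θ| ≤ θ := by
    have := Real.abs_sin_le_abs (x := θ)
    rwa [abs_of_pos hθ0] at this
  have htr := hS.track_both (h.fermi u) hκ0 hω0.le hm0.le (hT.bound h)
    (by rw [ht0, abs_zero]; linarith)
    (by
      rw [hy0, hφ0, abs_zero]
      have : m * |Real.sin θ| ≤ m * θ := mul_le_mul_of_nonneg_left hsin hm0.le
      linarith) τ hτ
  obtain ⟨_, _, b3, b4⟩ := htr
  rw [ht0, sub_zero] at b4
  rw [hy0, hφ0, zero_add] at b3
  have hy1 : |y τ| ≤ 9 / 1000 * ω := by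
    have e1 : |τ * Real.sin θ| ≤ m * θ := by
      rw [abs_mul]; exact mul_le_mul hτ hsin (abs_nonneg _) hm0.le
    have e2 : |y τ| ≤ |y τ - τ * Real.sin θ| + |τ * Real.sin θ| := by
      have := abs_add_le (y τ - τ * Real.sin θ) (τ * Real.sin θ)
      simpa using this
    have e3 : τ ^ 2 ≤ m ^ 2 := by rw [← sq_abs]; exact pow_le_pow_left₀ (abs_nonneg _) hτ 2
    have e4 : ((2 * m) ^ 3)⁻¹ * ω * τ ^ 2 / 2 ≤ ((2 * m) ^ 3)⁻¹ * ω * m ^ 2 / 2 := by gcongr
    linarith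
  -- second move
  obtain ⟨t', y', φ', hS', ht0', hy0', hφ0', hfl'⟩ := h.chart_sol u (t τ) (y τ) (φ τ + Real.pi / 2)
  have e1 : Φ τ (rot θ u) = psi Φ rot u (t τ) (y τ) (φ τ) := by rw [← hfl τ, h.psi_zero]
  rw [h.K_tube, e1, h.rot_psi, hfl' η, h.K_psi u _ _ _ 0]
  have l1 := hS'.y_lip 0 η
  have l2 := hS'.t_lip (h.fermi u) 0 η
  rw [hy0', sub_zero] at l1
  rw [ht0', sub_zero] at l2
  have p1 : |y' η| < ω := by
    have := abs_add_le (y' η - y τ) (y τ)
    rw [sub_add_cancel] at this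
    linarith
  have p2 : |t' η| ≤ 2 * m := by
    have := abs_add_le (t' η - t τ) (t τ)
    rw [sub_add_cancel] at this
    linarith
  refine lt_of_lt_of_le (hT _ _ p2 p1) ?_
  exact inv_anti₀ (by positivity) (pow_le_pow_left₀ hm0.le (by linarith) 3)

theorem cos_lower {x : ℝ} (hx : |x| ≤ 1 / 50) : 9998 / 10000 ≤ Real.cos x := by
  have := Real.one_sub_sq_div_two_le_cos (x := x)
  have : x ^ 2 ≤ (1 / 50) ^ 2 := by rw [← sq_abs]; exact pow_le_pow_left₀ (abs_nonneg _) hx 2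
  linarith

/-- errors of the tracking lemma in a tube of length `N = 10^4 m` -/
theorem err_bound {m ω L : ℝ} (hm : 100 ≤ m) (hω0 : 0 < ω) (hL0 : 0 ≤ L) (hL : L ≤ 100 * m) :
    ((10000 * m) ^ 3)⁻¹ * (95 / 100 * ω) * L ^ 2 / 2 ≤ 1 / 10000 * ω ∧
    ((10000 * m) ^ 3)⁻¹ * (95 / 100 * ω) * L ≤ 1 / 10000 * (ω / m) := by
  have hm0 : 0 < m := by linarith
  have h1 : L ^ 2 ≤ (100 * m) ^ 2 := pow_le_pow_left₀ hL0 hL 2
  have hp : 0 < ((10000 * m) ^ 3)⁻¹ * (95 / 100 * ω) := by positivity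
  constructor
  · calc ((10000 * m) ^ 3)⁻¹ * (95 / 100 * ω) * L ^ 2 / 2
        ≤ ((10000 * m) ^ 3)⁻¹ * (95 / 100 * ω) * (100 * m) ^ 2 / 2 := by gcongr
      _ = ω * (95 / 100 / 2 / 10 ^ 8 / m) := by field_simp; ring
      _ ≤ ω * (1 / 10000) := by
        apply mul_le_mul_of_nonneg_left _ hω0.le
        rw [div_le_iff₀ hm0]
        norm_num
        linarith
      _ = 1 / 10000 * ω := by ring
  · calc ((10000 * m) ^ 3)⁻¹ * (95 / 100 * ω) * L
        ≤ ((10000 * m) ^ 3)⁻¹ * (95 / 100 * ω) * (100 * m) := by gcongr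
      _ = ω / m * (95 / 100 / 10 ^ 10 / m) := by field_simp; ring
      _ ≤ ω / m * (1 / 10000) := by
        apply mul_le_mul_of_nonneg_left _ (by positivity)
        rw [div_le_iff₀ hm0]
        norm_num
        linarith
      _ = 1 / 10000 * (ω / m) := by ring

/-- **(GC)** two nearly parallel wide tubes make a wider tube in the middle -/
theorem PreGeo.GC (h : PreGeo Φ rot K G G1) {u : T} {m ω : ℝ} (hm : 100 ≤ m) (hω0 : 0 < ω)
    (hω : ω ≤ m) (hT : Tube Φ rot K u (10000 * m) (95 / 100 * ω))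
    (hT' : Tube Φ rot K (rot (8 / 10 * ω / (100 * m)) u) (10000 * m) (95 / 100 * ω)) :
    Tube Φ rot K (shift Φ rot (4 / 10 * ω) (Φ (100 * m) u)) m (13 / 10 * ω) := by
  intro τ η hτ hη
  have hm0 : 0 < m := by linarith
  have hκ0 : 0 ≤ ((10000 * m) ^ 3)⁻¹ := by positivity
  have hr0 : 0 ≤ 95 / 100 * ω := by positivity
  have hωm : ω / m ≤ 1 := (div_le_one hm0).2 hω
  have hωm0 : 0 < ω / m := by positivity
  -- the final comparison of thresholds
  have hthr : ((10000 * m) ^ 3)⁻¹ ≤ (m ^ 3)⁻¹ :=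
    inv_anti₀ (by positivity) (pow_le_pow_left₀ hm0.le (by linarith) 3)
  obtain ⟨hη1, hη2⟩ := abs_lt.1 hη
  rcases le_total η 0 with hη0 | hη0
  · -- chart of `u`
    obtain ⟨t, y, φ, hS, ht0, hy0, hφ0, hfl⟩ := h.chart_sol u (100 * m) (4 / 10 * ω) 0
    obtain ⟨er1, er2⟩ := err_bound (ω := ω) hm hω0 hm0.le (by linarith : m ≤ 100 * m)
    obtain ⟨a1, a2, a3, a4⟩ := hS.track_both (h.fermi u) hκ0 hr0 hm0.le (hT.bound h)
      (by rw [ht0, abs_of_pos (by positivity)]; linarith)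
      (by rw [hy0, hφ0, Real.sin_zero, abs_zero, mul_zero, add_zero, abs_of_pos (by positivity)]
          linarith) τ hτ
    rw [hφ0, sub_zero] at a2
    rw [hy0, hφ0, Real.sin_zero, mul_zero, add_zero] at a3
    rw [ht0] at a4
    have c2 : |φ τ| ≤ 1 / 10000 := by
      have : ((10000 * m) ^ 3)⁻¹ * (95 / 100 * ω) * |τ| ≤
          ((10000 * m) ^ 3)⁻¹ * (95 / 100 * ω) * m := by gcongr
      linarith
    have c3 : |y τ - 4 / 10 * ω| ≤ 1 / 10000 * ω := by
      have e3 : τ ^ 2 ≤ m ^ 2 := by rw [← sq_abs]; exact pow_le_pow_left₀ (abs_nonneg _) hτ 2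
      have : ((10000 * m) ^ 3)⁻¹ * (95 / 100 * ω) * τ ^ 2 / 2 ≤
          ((10000 * m) ^ 3)⁻¹ * (95 / 100 * ω) * m ^ 2 / 2 := by gcongr
      linarith
    have c4 : |t τ| ≤ 101 * m := by
      have := abs_add_le (t τ - 100 * m) (100 * m)
      rw [sub_add_cancel, abs_of_pos (show 0 < 100 * m by positivity)] at this
      linarith
    have hcos := cos_lower (x := φ τ) (by linarith)
    have hcos1 := Real.cos_le_one (φ τ)
    obtain ⟨c31, c32⟩ := abs_le.1 c3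
    -- second move: downwards for time `-η`
    obtain ⟨t', y', φ', hS', ht0', hy0', hφ0', hfl'⟩ :=
      h.chart_sol u (t τ) (y τ) (φ τ + Real.pi / 2)
    have hLη : (0 : ℝ) ≤ -η := by linarith
    obtain ⟨er3, _⟩ := err_bound (ω := ω) hm hω0 hLη (by linarith : -η ≤ 100 * m)
    have hcη : -η * Real.cos (φ τ) ≤ -η := by nlinarith
    have hcη' : 0 ≤ -η * Real.cos (φ τ) := mul_nonneg hLη (by linarith)
    obtain ⟨b1, _, _, b4⟩ := hS'.track_neg (h.fermi u) hκ0 hr0 hLη (hT.bound h)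
      (by rw [ht0']; linarith)
      (by rw [hy0', abs_lt]; constructor <;> linarith)
      (by
        rw [hy0', hφ0', Real.sin_add_pi_div_two, abs_lt]
        constructor <;> linarith) η ⟨by linarith, hη0⟩
    rw [ht0'] at b4
    have e1 : Φ τ (shift Φ rot (4 / 10 * ω) (Φ (100 * m) u)) = psi Φ rot u (t τ) (y τ) (φ τ) := by
      rw [shift_flow, hfl τ]
    rw [h.K_tube, e1, h.rot_psi, hfl' η, h.K_psi u _ _ _ 0]
    refine lt_of_lt_of_le (hT _ _ ?_ b1) hthr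
    have := abs_add_le (t' η - t τ) (t τ)
    rw [sub_add_cancel] at this
    linarith
  · -- chart of `u' = rot θ u`
    set θ : ℝ := 8 / 10 * ω / (100 * m) with hθ
    set u' := rot θ u with hu'
    have hθ0 : 0 < θ := by positivity
    have hθm : 100 * m * θ = 8 / 10 * ω := by rw [hθ]; field_simp
    have hθ1 : θ = 8 / 1000 * (ω / m) := by rw [hθ]; field_simp; norm_num
    have hθs : θ ≤ 8 / 1000 := by rw [hθ1]; linarith
    have hu : u = psi Φ rot u' 0 0 (-θ) := by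
      rw [h.psi_zero, hu', h.rot_rot, neg_add_cancel, h.rot_zero]
    -- move 1: flow `100 m`
    obtain ⟨t1, y1, φ1, hS1, ht1, hy1, hφ1, hf1⟩ := h.chart_sol u' 0 0 (-θ)
    have hn0 : (0 : ℝ) ≤ 100 * m := by positivity
    obtain ⟨er1, er2⟩ := err_bound (ω := ω) hm hω0 hn0 le_rfl
    have hsin1 : Real.sin θ ≤ θ := Real.sin_le hθ0.le
    have hsin2 : θ - θ ^ 3 / 4 < Real.sin θ := by
      have h1 := Real.sin_gt_sub_cube hθ0
      have h2 : 0 < θ ^ 3 := by positivity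
      linarith
    have hθ3 : 100 * m * (θ ^ 3 / 4) ≤ 1 / 10000 * ω := by
      have e : 100 * m * (θ ^ 3 / 4) = 8 / 10 * ω * (θ ^ 2 / 4) := by rw [← hθm]; ring
      rw [e]
      have : θ ^ 2 ≤ (8 / 1000) ^ 2 := pow_le_pow_left₀ hθ0.le hθs 2
      nlinarith
    have hns1 : 100 * m * Real.sin θ ≤ 8 / 10 * ω := by
      rw [← hθm]; exact mul_le_mul_of_nonneg_left hsin1 hn0
    have hns2 : 8 / 10 * ω - 1 / 10000 * ω ≤ 100 * m * Real.sin θ := by
      have := mul_le_mul_of_nonneg_left hsin2.le hn0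
      rw [mul_sub, hθm] at this
      linarith
    obtain ⟨a1, a2, a3, a4⟩ := hS1.track (h.fermi u') hκ0 hr0 hn0 (hT'.bound h)
      (by rw [ht1, abs_zero]; linarith) (by rw [hy1, abs_zero]; linarith)
      (by
        rw [hy1, hφ1, Real.sin_neg, abs_lt]
        constructor <;> linarith) (100 * m) ⟨hn0, le_rfl⟩
    rw [hφ1] at a2
    rw [hy1, hφ1, Real.sin_neg, zero_add] at a3
    rw [ht1, sub_zero] at a4
    have q2 : |φ1 (100 * m)| ≤ 81 / 10000 := by
      have := abs_add_le (φ1 (100 * m) - -θ) (-θ)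
      rw [sub_add_cancel, abs_neg, abs_of_pos hθ0] at this
      linarith
    obtain ⟨a31, a32⟩ := abs_le.1 a3
    -- move 2: flow `0.4 ω` after a quarter turn
    obtain ⟨t2, y2, φ2, hS2, ht2, hy2, hφ2, hf2⟩ :=
      h.chart_sol u' (t1 (100 * m)) (y1 (100 * m)) (φ1 (100 * m) + Real.pi / 2)
    have hL2 : (0 : ℝ) ≤ 4 / 10 * ω := by positivity
    obtain ⟨er3, er4⟩ := err_bound (ω := ω) hm hω0 hL2 (by linarith : 4 / 10 * ω ≤ 100 * m)
    have hcos1 := cos_lower (x := φ1 (100 * m)) (by linarith)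
    have hcos1' := Real.cos_le_one (φ1 (100 * m))
    have hc1 : 4 / 10 * ω * (9998 / 10000) ≤ 4 / 10 * ω * Real.cos (φ1 (100 * m)) :=
      mul_le_mul_of_nonneg_left hcos1 hL2
    have hc2 : 4 / 10 * ω * Real.cos (φ1 (100 * m)) ≤ 4 / 10 * ω * 1 :=
      mul_le_mul_of_nonneg_left hcos1' hL2
    obtain ⟨b1, b2, b3, b4⟩ := hS2.track (h.fermi u') hκ0 hr0 hL2 (hT'.bound h)
      (by rw [ht2]; linarith)
      (by rw [hy2, abs_lt]; constructor <;> linarith)
      (by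
        rw [hy2, hφ2, Real.sin_add_pi_div_two, abs_lt]
        constructor <;> linarith) (4 / 10 * ω) ⟨hL2, le_rfl⟩
    rw [hφ2] at b2
    rw [hy2, hφ2, Real.sin_add_pi_div_two] at b3
    rw [ht2] at b4
    obtain ⟨b31, b32⟩ := abs_le.1 b3
    -- the vector `v` in the chart
    have hv : shift Φ rot (4 / 10 * ω) (Φ (100 * m) u) =
        psi Φ rot u' (t2 (4 / 10 * ω)) (y2 (4 / 10 * ω)) (φ2 (4 / 10 * ω) + -(Real.pi / 2)) := by
      unfold shift
      rw [← h.rot_psi, ← hf2, ← h.rot_psi, ← hf1, ← hu]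
    set φv := φ2 (4 / 10 * ω) + -(Real.pi / 2) with hφv
    have qv : |φv| ≤ 82 / 10000 := by
      have e : φv = (φ2 (4 / 10 * ω) - (φ1 (100 * m) + Real.pi / 2)) + φ1 (100 * m) := by
        rw [hφv]; ring
      rw [e]
      have := abs_add_le (φ2 (4 / 10 * ω) - (φ1 (100 * m) + Real.pi / 2)) (φ1 (100 * m))
      linarith
    have qv' : |φv| ≤ 8 / 1000 * (ω / m) + 2 / 10000 * (ω / m) := by
      have e : φv = (φ2 (4 / 10 * ω) - (φ1 (100 * m) + Real.pi / 2)) +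
          ((φ1 (100 * m) - -θ) + -θ) := by
        rw [hφv]; ring
      rw [e]
      have k1 := abs_add_le (φ2 (4 / 10 * ω) - (φ1 (100 * m) + Real.pi / 2))
        ((φ1 (100 * m) - -θ) + -θ)
      have k2 := abs_add_le (φ1 (100 * m) - -θ) (-θ)
      rw [abs_neg, abs_of_pos hθ0] at k2
      linarith
    -- move 3: flow `τ`
    obtain ⟨t3, y3, φ3, hS3, ht3, hy3, hφ3, hf3⟩ :=
      h.chart_sol u' (t2 (4 / 10 * ω)) (y2 (4 / 10 * ω)) φv
    obtain ⟨er5, er6⟩ := err_bound (ω := ω) hm hω0 hm0.le (by linarith : m ≤ 100 * m)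
    have ht2b : |t2 (4 / 10 * ω)| ≤ 101 * m := by
      have := abs_add_le (t2 (4 / 10 * ω) - t1 (100 * m)) (t1 (100 * m))
      rw [sub_add_cancel] at this
      linarith
    have hy2b : |y2 (4 / 10 * ω)| ≤ 405 / 1000 * ω := by
      rw [abs_le]; constructor <;> linarith
    have hsv : m * |Real.sin φv| ≤ 82 / 10000 * ω := by
      have e1 : |Real.sin φv| ≤ |φv| := Real.abs_sin_le_abs
      have e2 : m * |Real.sin φv| ≤ m * (8 / 1000 * (ω / m) + 2 / 10000 * (ω / m)) :=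
        mul_le_mul_of_nonneg_left (e1.trans qv') hm0.le
      have e3 : m * (8 / 1000 * (ω / m) + 2 / 10000 * (ω / m)) = 82 / 10000 * ω := by
        field_simp; norm_num
      linarith
    obtain ⟨c1, c2, c3, c4⟩ := hS3.track_both (h.fermi u') hκ0 hr0 hm0.le (hT'.bound h)
      (by rw [ht3]; linarith)
      (by rw [hy3, hφ3]; linarith) τ hτ
    rw [hφ3] at c2
    rw [hy3, hφ3] at c3
    rw [ht3] at c4
    have d2 : |φ3 τ| ≤ 83 / 10000 := by
      have k := abs_add_le (φ3 τ - φv) φv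
      rw [sub_add_cancel] at k
      have : ((10000 * m) ^ 3)⁻¹ * (95 / 100 * ω) * |τ| ≤
          ((10000 * m) ^ 3)⁻¹ * (95 / 100 * ω) * m := by gcongr
      linarith
    have d3 : |y3 τ - y2 (4 / 10 * ω)| ≤ 83 / 10000 * ω := by
      have e3 : τ ^ 2 ≤ m ^ 2 := by rw [← sq_abs]; exact pow_le_pow_left₀ (abs_nonneg _) hτ 2
      have e4 : ((10000 * m) ^ 3)⁻¹ * (95 / 100 * ω) * τ ^ 2 / 2 ≤
          ((10000 * m) ^ 3)⁻¹ * (95 / 100 * ω) * m ^ 2 / 2 := by gcongr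
      have e5 : |τ * Real.sin φv| ≤ m * |Real.sin φv| := by
        rw [abs_mul]; exact mul_le_mul_of_nonneg_right hτ (abs_nonneg _)
      have e6 := abs_add_le (y3 τ - (y2 (4 / 10 * ω) + τ * Real.sin φv)) (τ * Real.sin φv)
      rw [show y3 τ - (y2 (4 / 10 * ω) + τ * Real.sin φv) + τ * Real.sin φv =
        y3 τ - y2 (4 / 10 * ω) by ring] at e6
      linarith
    obtain ⟨d31, d32⟩ := abs_le.1 d3
    have ht3b : |t3 τ| ≤ 102 * m := by
      have := abs_add_le (t3 τ - t2 (4 / 10 * ω)) (t2 (4 / 10 * ω))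
      rw [sub_add_cancel] at this
      linarith
    -- move 4: flow `η` after a quarter turn
    obtain ⟨t4, y4, φ4, hS4, ht4, hy4, hφ4, hf4⟩ :=
      h.chart_sol u' (t3 τ) (y3 τ) (φ3 τ + Real.pi / 2)
    obtain ⟨er7, _⟩ := err_bound (ω := ω) hm hω0 hη0 (by linarith : η ≤ 100 * m)
    have hcos3 := cos_lower (x := φ3 τ) (by linarith)
    have hcos3' := Real.cos_le_one (φ3 τ)
    have hcη : η * Real.cos (φ3 τ) ≤ η * 1 := mul_le_mul_of_nonneg_left hcos3' hη0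
    have hcη' : 0 ≤ η * Real.cos (φ3 τ) := mul_nonneg hη0 (by linarith)
    obtain ⟨f1, _, _, f4⟩ := hS4.track (h.fermi u') hκ0 hr0 hη0 (hT'.bound h)
      (by rw [ht4]; linarith)
      (by rw [hy4, abs_lt]; constructor <;> linarith)
      (by
        rw [hy4, hφ4, Real.sin_add_pi_div_two, abs_lt]
        constructor <;> linarith) η ⟨hη0, le_rfl⟩
    rw [ht4] at f4
    rw [h.K_tube, hv, hf3 τ, h.rot_psi, hf4 η, h.K_psi u' _ _ _ 0]
    refine lt_of_lt_of_le (hT' _ _ ?_ f1) hthr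
    have := abs_add_le (t4 η - t3 τ) (t3 τ)
    rw [sub_add_cancel] at this
    linarith

end NearFlat
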